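import Pool.Agent.H31R2.DH.Back

/-!
# Few zeros imply small values in a disc of arbitrary radius
-/

set_option autoImplicit false

open Complex Metric Set Filter Topology

namespace Pool.Agent.N799.LH

/-- The zeros of `f` in `U`, counted with multiplicity, are at most `B` in number. -/
def ZL (f : ℂ → ℂ) (U : Set ℂ) (B : ℝ) : Prop :=
  ∀ S : Finset ℂ, (∀ z ∈ S, z ∈ U ∧ f z = 0) → ∑ z ∈ S, (analyticOrderNatAt f z : ℝ) ≤ B

theorem ZL.mono {f : ℂ → ℂ} {U V : Set ℂ} {B B' : ℝ} (h : ZL f V B) (hUV : U ⊆ V) (hB : B ≤ B') :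
    ZL f U B' := fun S hS => (h S fun z hz => ⟨hUV (hS z hz).1, (hS z hz).2⟩).trans hB

theorem ZL.mono' {f : ℂ → ℂ} {U V : Set ℂ} {B B' : ℝ} (h : ZL f V B)
    (hUV : ∀ z ∈ U, f z = 0 → z ∈ V) (hB : B ≤ B') :
    ZL f U B' := fun S hS => (h S fun z hz => ⟨hUV z (hS z hz).1 (hS z hz).2, (hS z hz).2⟩).trans hB

/-- zeros and orders along a bijective change of variables -/
theorem ZL.comp {f g : ℂ → ℂ} {σ : ℂ → ℂ} (hσ : Function.Injective σ) {U : Set ℂ} {B : ℝ}
    (h0 : ∀ z ∈ U, g z = 0 → f (σ z) = 0)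
    (ho : ∀ z ∈ U, g z = 0 → analyticOrderNatAt g z = analyticOrderNatAt f (σ z)) {V : Set ℂ}
    (hV : ∀ z ∈ U, g z = 0 → σ z ∈ V) (h : ZL f V B) : ZL g U B := by
  classical
  intro S hS
  have h1 := h (S.image σ) (by
    intro w hw
    obtain ⟨z, hz, rfl⟩ := Finset.mem_image.1 hw
    exact ⟨hV z (hS z hz).1 (hS z hz).2, h0 z (hS z hz).1 (hS z hz).2⟩)
  rw [Finset.sum_image (fun x _ y _ hxy => hσ hxy)] at h1
  refine le_trans (le_of_eq ?_) h1
  exact Finset.sum_congr rfl fun z hz => by rw [ho z (hS z hz).1 (hS z hz).2]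

theorem order_affine (f : ℂ → ℂ) (c : ℂ) {R : ℂ} (hR : R ≠ 0) (z : ℂ) :
    analyticOrderNatAt (fun z => f (c + R * z)) z = analyticOrderNatAt f (c + R * z) := by
  have hg : AnalyticAt ℂ (fun z : ℂ => c + R * z) z := by fun_prop
  have hd : deriv (fun z : ℂ => c + R * z) z ≠ 0 := by
    have : deriv (fun z : ℂ => c + R * z) z = R := by
      have h1 : HasDerivAt (fun z : ℂ => c + R * z) (R * 1) z :=
        ((hasDerivAt_id z).const_mul R).const_add c
      rw [h1.deriv, mul_one]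
    rw [this]; exact hR
  have h := analyticOrderAt_comp_of_deriv_ne_zero (f := f) hg hd
  unfold analyticOrderNatAt
  have e : (fun z => f (c + R * z)) = f ∘ (fun z : ℂ => c + R * z) := rfl
  rw [e, h]

/-- few zeros imply small values -/
theorem few_small (R r l0 C ε : ℝ) (hl0 : 0 < l0) (hlr : l0 ≤ r) (hrR : r < R) (hC : 0 ≤ C)
    (hε : 0 < ε) :
    ∃ η L : ℝ, 0 < η ∧ 1 ≤ L ∧ ∀ ℓ : ℝ, L ≤ ℓ → ∀ (f : ℂ → ℂ) (c : ℂ),
      AnalyticOnNhd ℂ f (closedBall c R) →
      (∀ z ∈ closedBall c R, ‖f z‖ ≤ Real.exp (C * ℓ)) →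
      (∀ z ∈ closedBall c l0, f z ≠ 0 ∧ ‖f z‖ ≤ Real.exp (η * ℓ)) →
      Real.exp (-(η * ℓ)) ≤ ‖f c‖ →
      ZL f (closedBall c R) (η * ℓ) → ∀ z ∈ closedBall c r, ‖f z‖ ≤ Real.exp (ε * ℓ) := by
  have hr0 : 0 < r := by linarith
  have hR0 : 0 < R := by linarith
  set q : ℝ := r / R with hq
  have hq0 : 0 < q := by positivity
  have hq1 : q < 1 := by rw [hq, div_lt_one hR0]; exact hrR
  set δ : ℝ := (1 - q) / 3 with hδd
  have hδ : 0 < δ := by
    have : 0 < 1 - q := by linarith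
    positivity
  have hδ1 : δ < 1 := by rw [hδd]; linarith
  set l : ℝ := l0 / R with hl
  have hl0' : 0 < l := by positivity
  have hlq : l ≤ q := by rw [hl, hq]; gcongr
  have hlogδ : 0 ≤ Real.log (1 / δ) := Real.log_nonneg (by rw [le_div_iff₀ hδ]; linarith)
  have hlog2l : 0 ≤ Real.log (2 / l) := Real.log_nonneg (by rw [le_div_iff₀ hl0']; linarith)
  set D : ℝ := 8 / δ ^ 2 * (C + Real.log (1 / δ) + 2) with hD
  have hD0 : 0 < D := by positivity
  obtain ⟨K, hK⟩ := exists_pow_lt_of_lt_one (show 0 < ε / 2 / D by positivity)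
    (show 1 - δ / 2 < 1 by linarith)
  have hq0' : 0 ≤ 1 - δ / 2 := by linarith
  rw [lt_div_iff₀ hD0] at hK
  set G : ℝ := K * (4 / l) ^ K with hG
  have hG0 : 0 ≤ G := by positivity
  set E : ℝ := 1 + Real.log (2 / l) + 2 * (2 + Real.log (2 / l)) * G with hE
  have hE0 : 0 < E := by positivity
  set η : ℝ := min 1 (ε / 4 / E) with hη
  have hη0 : 0 < η := lt_min one_pos (by positivity)
  have hη1 : η ≤ 1 := min_le_left _ _
  have hη2 : η * E ≤ ε / 4 := by
    have : η ≤ ε / 4 / E := min_le_right _ _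
    rwa [le_div_iff₀ hE0] at this
  refine ⟨η, max 1 (8 * G / ε), hη0, le_max_left _ _, ?_⟩
  intro ℓ hℓ f c hf hM hA ha hZ z hz
  have hℓ1 : 1 ≤ ℓ := (le_max_left _ _).trans hℓ
  have hℓ2 : 8 * G ≤ ε * ℓ := by
    have := (le_max_right _ _).trans hℓ
    rw [div_le_iff₀ hε] at this
    linarith
  have hℓ0 : 0 < ℓ := by linarith
  set F : ℂ → ℂ := fun z => f (c + R * z) with hF
  have hmem : ∀ (x : ℂ) (ρ : ℝ), x ∈ closedBall (0 : ℂ) ρ → c + R * x ∈ closedBall c (R * ρ) := by
    intro x ρ hx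
    rw [mem_closedBall_zero_iff] at hx
    rw [mem_closedBall, dist_eq_norm, add_sub_cancel_left, norm_mul, Complex.norm_real,
      Real.norm_of_nonneg hR0.le]
    gcongr
  have hsum : q + 3 * δ = 1 := by rw [hδd]; ring
  have hmem1 : ∀ x ∈ closedBall (0 : ℂ) (q + 3 * δ), c + R * x ∈ closedBall c R := by
    intro x hx
    have := hmem x _ hx
    rwa [hsum, mul_one] at this
  have hfc : f c ≠ 0 := (hA c (mem_closedBall_self hl0.le)).1
  have key := DH31.backlund_abs (f := F) (c := 0) (ϱ := q) (δ := δ) (l := l) (n := η * ℓ)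
    (M := Real.exp (C * ℓ)) (A := Real.exp (η * ℓ)) (a := Real.exp (η * ℓ)) hl0' (by linarith) hlq
    hsum.le hδ (Real.one_le_exp (by positivity)) (Real.one_le_exp (by positivity))
    (Real.one_le_exp (by positivity)) (by positivity)
    (by
      intro x hx
      have h1 := hf _ (hmem1 x hx)
      have h2 : AnalyticAt ℂ (fun x : ℂ => c + R * x) x := by fun_prop
      exact AnalyticAt.comp (f := fun x : ℂ => c + R * x) (g := f) h1 h2)
    (fun x hx => hM _ (hmem1 x hx))
    (by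
      intro x hx
      refine (hA _ ?_).2
      have h1 := hmem x _ hx
      refine closedBall_subset_closedBall ?_ h1
      have : R * (l / 2) = l0 / 2 := by rw [hl]; field_simp
      rw [this]; linarith)
    (by
      have e : F 0 = f c := by simp [hF]
      rw [e, one_div, ← Real.exp_neg]
      exact ha)
    (by
      intro x hx h0
      rw [sub_zero]
      by_contra hcon
      push Not at hcon
      refine (hA (c + R * x) ?_).1 h0
      rw [mem_closedBall, dist_eq_norm, add_sub_cancel_left, norm_mul, Complex.norm_real,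
        Real.norm_of_nonneg hR0.le]
      rw [hl, lt_div_iff₀ hR0] at hcon
      linarith)
    (by
      have hZ2 : ZL F (closedBall 0 (q + 2 * δ)) (η * ℓ) := by
        refine ZL.comp (f := f) (σ := fun x => c + R * x) ?_ ?_ ?_ ?_ hZ
        · intro x y hxy
          have hRc : (R : ℂ) ≠ 0 := by exact_mod_cast hR0.ne'
          exact mul_left_cancel₀ hRc (add_left_cancel hxy)
        · intro x hx h0; exact h0
        · intro x hx h0
          exact order_affine f c (by exact_mod_cast hR0.ne') x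
        · intro x hx h0
          exact hmem1 x (closedBall_subset_closedBall (by linarith) hx)
      exact hZ2) K (z := (z - c) / R) (by
      rw [mem_closedBall_zero_iff, norm_div, Complex.norm_real, Real.norm_of_nonneg hR0.le]
      rw [mem_closedBall, dist_eq_norm] at hz
      have : ‖z - c‖ / R ≤ q := by rw [hq]; gcongr
      linarith)
  have e : F ((z - c) / R) = f z := by
    simp only [hF]
    congr 1
    have hRc : (R : ℂ) ≠ 0 := by exact_mod_cast hR0.ne'
    field_simp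
    ring
  rw [e, Real.log_exp, Real.log_exp, ← Real.exp_add] at key
  refine key.trans (Real.exp_le_exp.2 ?_)
  rw [← hG]
  have h1 : 4 * (C * ℓ + η * ℓ * Real.log (1 / δ) + η * ℓ + 1) / δ * (1 - δ / 2) ^ K * (2 / δ) ≤
      ε / 2 * ℓ := by
    calc 4 * (C * ℓ + η * ℓ * Real.log (1 / δ) + η * ℓ + 1) / δ * (1 - δ / 2) ^ K * (2 / δ)
        ≤ 4 * (C * ℓ + 1 * ℓ * Real.log (1 / δ) + 1 * ℓ + ℓ) / δ * (1 - δ / 2) ^ K * (2 / δ) := by
          gcongr
      _ = ((1 - δ / 2) ^ K * D) * ℓ := by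
          rw [hD]; field_simp; ring
      _ ≤ ε / 2 * ℓ := by gcongr
  have h2 : η * ℓ + η * ℓ * Real.log (2 / l) + 2 * (η * ℓ + η * ℓ * Real.log (2 / l) + η * ℓ + 1) * G
      = (η * E) * ℓ + 2 * G := by
    rw [hE]; ring
  have h3 : (η * E) * ℓ ≤ ε / 4 * ℓ := by gcongr
  linarith

/-- Jensen's bound for the number of zeros -/
theorem jensen_ZL (R r : ℝ) (hr : 0 < r) (hrR : r < R) : ∃ C : ℝ, 0 < C ∧ ∀ (f : ℂ → ℂ) (c : ℂ)
    (a : ℝ), 0 ≤ a → AnalyticOnNhd ℂ f (closedBall c R) →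
    (∀ z ∈ closedBall c R, ‖f z‖ ≤ Real.exp a) → Real.exp (-a) ≤ ‖f c‖ →
    ZL f (closedBall c r) (C * a) := by
  have hR0 : 0 < R := by linarith
  have hlog : 0 < Real.log (R / r) := Real.log_pos (by rw [lt_div_iff₀ hr]; linarith)
  refine ⟨2 / Real.log (R / r), by positivity, fun f c a ha hf hb hc S hS => ?_⟩
  have hfc : 0 < ‖f c‖ := lt_of_lt_of_le (Real.exp_pos _) hc
  have h1 := H370.Loc.jensen_mult hr hrR (Real.one_le_exp ha) hf (norm_pos_iff.1 hfc) hb S
    (fun z hz => (hS z hz).1)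
  have h2 : Real.log (Real.exp a / ‖f c‖) ≤ 2 * a := by
    rw [Real.log_div (Real.exp_pos _).ne' hfc.ne', Real.log_exp]
    have h3 := Real.log_le_log (Real.exp_pos _) hc
    rw [Real.log_exp] at h3
    linarith
  refine (show ∑ z ∈ S, (analyticOrderNatAt f z : ℝ) ≤ _ from h1).trans ?_
  rw [div_mul_eq_mul_div]
  gcongr

/-- covering -/
theorem ZL.union {f : ℂ → ℂ} {U V : Set ℂ} {B B' : ℝ} (h : ZL f U B) (h' : ZL f V B') :
    ZL f (U ∪ V) (B + B') := by
  classical
  intro S hS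
  have h1 := h (S.filter (· ∈ U)) (fun z hz => by
    rw [Finset.mem_filter] at hz
    exact ⟨hz.2, (hS z hz.1).2⟩)
  have h2 := h' (S.filter (¬ · ∈ U)) (fun z hz => by
    rw [Finset.mem_filter] at hz
    exact ⟨((hS z hz.1).1).resolve_left hz.2, (hS z hz.1).2⟩)
  rw [← Finset.sum_filter_add_sum_filter_not S (· ∈ U)]
  linarith

theorem ZL.empty (f : ℂ → ℂ) {B : ℝ} (hB : 0 ≤ B) : ZL f ∅ B := by
  intro S hS
  have : S = ∅ := Finset.eq_empty_of_forall_notMem fun z hz => (hS z hz).1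
  rw [this]
  simpa using hB

theorem ZL.iUnion {f : ℂ → ℂ} {U : ℕ → Set ℂ} {B : ℝ} (N : ℕ)
    (h : ∀ k < N, ZL f (U k) B) : ZL f (⋃ k < N, U k) (N * B) := by
  induction N with
  | zero =>
    intro S hS
    have : S = ∅ := Finset.eq_empty_of_forall_notMem fun z hz => by
      have := (hS z hz).1
      simp at this
    rw [this]
    simp
  | succ n ih =>
    have h1 := (ih fun k hk => h k (by omega)).union (h n (by omega))
    refine h1.mono ?_ (le_of_eq (by push_cast; ring))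
    intro z hz
    simp only [mem_iUnion] at hz
    obtain ⟨k, hk, hz⟩ := hz
    rcases Nat.lt_or_ge k n with h2 | h2
    · left
      simp only [mem_iUnion]
      exact ⟨k, h2, hz⟩
    · right
      have : k = n := by omega
      rwa [this] at hz

end Pool.Agent.N799.LH
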