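import Pool.Agent.N799.LH.RightB
import Pool.Agent.N799.SP.Final

/-!
# Transfer to constant coefficient differential polynomials of `ζ`
-/

set_option autoImplicit false

open Complex Metric Set Filter Topology Polynomial

namespace Pool.Agent.N799.LH

open Pool.Agent.N799.SP

theorem analytic_star {f : ℂ → ℂ} {z : ℂ} (hf : AnalyticAt ℂ f ((starRingEnd ℂ) z)) :
    AnalyticAt ℂ (fun w => (starRingEnd ℂ) (f ((starRingEnd ℂ) w))) z := by
  rw [Complex.analyticAt_iff_eventually_differentiableAt] at hf ⊢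
  have hc : Tendsto (fun w : ℂ => (starRingEnd ℂ) w) (𝓝 z) (𝓝 ((starRingEnd ℂ) z)) :=
    (Complex.continuous_conj.tendsto z)
  filter_upwards [hc.eventually hf] with w hw
  have := hw.conj_conj
  rw [Complex.conj_conj] at this
  exact this

theorem order_star {f : ℂ → ℂ} {z : ℂ} (hf : AnalyticAt ℂ f ((starRingEnd ℂ) z)) :
    analyticOrderAt (fun w => (starRingEnd ℂ) (f ((starRingEnd ℂ) w))) z =
      analyticOrderAt f ((starRingEnd ℂ) z) := by
  have hc : Tendsto (fun w : ℂ => (starRingEnd ℂ) w) (𝓝 z) (𝓝 ((starRingEnd ℂ) z)) :=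
    (Complex.continuous_conj.tendsto z)
  rcases h : analyticOrderAt f ((starRingEnd ℂ) z) with _ | n
  · have h' : analyticOrderAt f ((starRingEnd ℂ) z) = ⊤ := h
    change _ = (⊤ : ℕ∞)
    rw [analyticOrderAt_eq_top] at h' ⊢
    filter_upwards [hc.eventually h'] with w hw
    rw [hw, map_zero]
  · have h' : analyticOrderAt f ((starRingEnd ℂ) z) = (n : ℕ∞) := h
    change _ = (n : ℕ∞)
    rw [hf.analyticOrderAt_eq_natCast] at h'
    obtain ⟨g, hg, hg0, hfg⟩ := h'
    rw [(analytic_star hf).analyticOrderAt_eq_natCast]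
    refine ⟨fun w => (starRingEnd ℂ) (g ((starRingEnd ℂ) w)), analytic_star hg, ?_, ?_⟩
    · simpa using hg0
    · filter_upwards [hc.eventually hfg] with w hw
      rw [hw]
      simp [smul_eq_mul, map_mul, map_pow, map_sub]

/-- reflection in the critical line -/
noncomputable def rl (w : ℂ) : ℂ := (starRingEnd ℂ) (1 - w)

theorem rl_re (w : ℂ) : (rl w).re = 1 - w.re := by simp [rl]
theorem rl_im (w : ℂ) : (rl w).im = w.im := by simp [rl]
theorem rl_rl (w : ℂ) : rl (rl w) = w := by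
  apply Complex.ext
  · rw [rl_re, rl_re]; ring
  · rw [rl_im, rl_im]
theorem rl_inj : Function.Injective rl := fun a b h => by rw [← rl_rl a, h, rl_rl]

/-- the reflected list -/
noncomputable def rlist (l : List ℂ) : List ℂ := (l.map (starRingEnd ℂ)).map (fun a => -a)

theorem TT_rl (l : List ℂ) (w : ℂ) : TT l riemannZeta (rl w) =
    (starRingEnd ℂ) ((-1) ^ l.length * TT (rlist l) Zf w) := by
  unfold rl rlist
  rw [TT_conj, zeta_star, TT_refl, List.length_map]
  rfl

theorem TT_analytic (l : List ℂ) {s : ℂ} (hs : s ≠ 1) : AnalyticAt ℂ (TT l riemannZeta) s := by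
  have hU : IsOpen ({1}ᶜ : Set ℂ) := isOpen_compl_singleton
  have hd : DifferentiableOn ℂ riemannZeta ({1}ᶜ : Set ℂ) := fun z hz =>
    (differentiableAt_riemannZeta hz).differentiableWithinAt
  exact (TT_diff hU l hd).analyticAt (hU.mem_nhds hs)

theorem order_rl (l : List ℂ) {w : ℂ} (hw : w.im ≠ 0) :
    analyticOrderNatAt (TT (rlist l) Zf) w = analyticOrderNatAt (TT l riemannZeta) (rl w) := by
  have hs : rl w ≠ 1 := ne_one_of_im (by rw [rl_im]; exact hw)
  have han := TT_analytic l hs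
  -- the function `z ↦ conj (TT l ζ (conj z))` at `1 - w`
  set g : ℂ → ℂ := fun z => (starRingEnd ℂ) (TT l riemannZeta ((starRingEnd ℂ) z)) with hg
  have h1 : analyticOrderAt g (1 - w) = analyticOrderAt (TT l riemannZeta) (rl w) := order_star han
  have h2 := order_affine g 1 (R := -1) (by norm_num) w
  have e1 : (1 : ℂ) + -1 * w = 1 - w := by ring
  rw [e1] at h2
  have h3 : (fun z : ℂ => g (1 + -1 * z)) = fun z => (-1) ^ l.length * TT (rlist l) Zf z := by
    funext z
    have e2 : (1 : ℂ) + -1 * z = 1 - z := by ring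
    rw [e2]
    have := TT_rl l z
    unfold rl at this
    simp only [hg]
    rw [this, Complex.conj_conj]
  rw [h3] at h2
  have h4 : analyticOrderNatAt (fun z => (-1) ^ l.length * TT (rlist l) Zf z) w =
      analyticOrderNatAt (TT (rlist l) Zf) w := by
    have hFan : AnalyticAt ℂ (TT (rlist l) Zf) w := by
      have hU : IsOpen {z : ℂ | z.im ≠ 0} := isOpen_ne_fun continuous_im continuous_const
      have hd : DifferentiableOn ℂ Zf {z : ℂ | z.im ≠ 0} := fun z hz =>
        (Zf_diffAt hz).differentiableWithinAt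
      exact (TT_diff hU _ hd).analyticAt (hU.mem_nhds hw)
    have h5 := order_mul_exp hFan (g := fun _ => (-1 : ℂ) ^ l.length) analyticAt_const
      (pow_ne_zero _ (by norm_num))
    rw [← h5]
    congr 1
    funext z
    ring
  rw [h4] at h2
  rw [h2]
  unfold analyticOrderNatAt
  rw [h1]

theorem zero_rl (l : List ℂ) (w : ℂ) : TT l riemannZeta (rl w) = 0 ↔ TT (rlist l) Zf w = 0 := by
  rw [TT_rl, map_eq_zero, mul_eq_zero]
  exact ⟨fun h => h.resolve_left (pow_ne_zero _ (by norm_num)), Or.inr⟩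

/-- passage from `ζ` to `Zf` -/
theorem ZL_rl (l : List ℂ) {U V : Set ℂ} {B : ℝ} (hU : ∀ w ∈ U, w.im ≠ 0)
    (hUV : ∀ w ∈ U, rl w ∈ V) (h : ZL (TT l riemannZeta) V B) : ZL (TT (rlist l) Zf) U B :=
  ZL.comp rl_inj (fun z _ h0 => (zero_rl l z).2 h0) (fun z hz _ => order_rl l (hU z hz))
    (fun z hz _ => hUV z hz) h

theorem ZL_rl' (l : List ℂ) {U V : Set ℂ} {B : ℝ} (hU : ∀ s ∈ U, s.im ≠ 0)
    (hUV : ∀ s ∈ U, rl s ∈ V) (h : ZL (TT (rlist l) Zf) V B) : ZL (TT l riemannZeta) U B :=
  ZL.comp rl_inj (fun z _ h0 => by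
    rw [← zero_rl, rl_rl]; exact h0) (fun z hz _ => by
    rw [order_rl l (by rw [rl_im]; exact hU z hz), rl_rl])
    (fun z hz _ => hUV z hz) h

/-- the differential polynomial -/
noncomputable def DD (p : ℂ[X]) (s : ℂ) : ℂ := p.sum fun j a => a * iteratedDeriv j riemannZeta s

theorem DD_eq (p : ℂ[X]) : ∀ s : ℂ, s ≠ 1 →
    DD p s = p.leadingCoeff * TT p.roots.toList riemannZeta s := by
  intro s hs
  have hU : IsOpen ({1}ᶜ : Set ℂ) := isOpen_compl_singleton
  have hd : DifferentiableOn ℂ riemannZeta ({1}ᶜ : Set ℂ) := fun z hz =>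
    (differentiableAt_riemannZeta hz).differentiableWithinAt
  unfold DD
  rw [TT_eq_ev hU _ hd s hs, ← ev_apply]
  have h1 := (IsAlgClosed.splits p).eq_prod_roots
  have h2 : (p.roots.toList.map (fun a => X - C a)).prod = (p.roots.map (X - C ·)).prod := by
    rw [← Multiset.prod_coe, ← Multiset.map_coe, Multiset.coe_toList]
  have h3 : p = p.leadingCoeff • (p.roots.toList.map (fun a => X - C a)).prod := by
    rw [h2, ← C_mul']
    exact h1
  conv_lhs => rw [h3]
  rw [map_smul, smul_eq_mul]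

theorem order_DD (p : ℂ[X]) (hp : p ≠ 0) {s : ℂ} (hs : s ≠ 1) :
    analyticOrderNatAt (DD p) s = analyticOrderNatAt (TT p.roots.toList riemannZeta) s := by
  have hev : DD p =ᶠ[𝓝 s] fun z => TT p.roots.toList riemannZeta z * p.leadingCoeff := by
    have hU : IsOpen ({1}ᶜ : Set ℂ) := isOpen_compl_singleton
    filter_upwards [hU.mem_nhds hs] with z hz
    rw [DD_eq p z hz, mul_comm]
  have h1 := order_mul_exp (TT_analytic p.roots.toList hs) (g := fun _ => p.leadingCoeff)
    analyticAt_const (leadingCoeff_ne_zero.2 hp)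
  rw [← h1]
  unfold analyticOrderNatAt
  rw [analyticOrderAt_congr hev]

theorem ZL_DD (p : ℂ[X]) (hp : p ≠ 0) {U : Set ℂ} {B : ℝ} (hU : ∀ s ∈ U, s ≠ 1) :
    ZL (DD p) U B ↔ ZL (TT p.roots.toList riemannZeta) U B := by
  have hz : ∀ s ∈ U, (DD p s = 0 ↔ TT p.roots.toList riemannZeta s = 0) := by
    intro s hs
    rw [DD_eq p s (hU s hs), mul_eq_zero]
    exact ⟨fun h => h.resolve_left (leadingCoeff_ne_zero.2 hp), Or.inr⟩
  constructor
  · exact ZL.comp (σ := id) Function.injective_id (fun z hz' h0 => (hz z hz').2 h0)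
      (fun z hz' _ => (order_DD p hp (hU z hz')).symm) (fun z hz' _ => hz')
  · exact ZL.comp (σ := id) Function.injective_id (fun z hz' h0 => (hz z hz').1 h0)
      (fun z hz' _ => order_DD p hp (hU z hz')) (fun z hz' _ => hz')

end Pool.Agent.N799.LH
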