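import Pool.Agent.N799.LH.Iter
import Pool.Agent.N799.SP.MainB

/-!
# Small values of `ζ` near the line imply few zeros
-/

set_option autoImplicit false

open Complex Metric Set Filter Topology

namespace Pool.Agent.N799.LH

open Pool.Agent.N799.SP
open H345 (XX)

/-- small values on the line near height `t` -/
def SL (η A t : ℝ) : Prop := ∀ y : ℝ, |y - t| ≤ A → ‖riemannZeta ⟨1 / 2, y⟩‖ ≤ Real.exp (η * Real.log t)

/-- from the line to the right -/
theorem right_of_line (ε R : ℝ) (hε : 0 < ε) (hR : 0 < R) : ∃ η A t₀ : ℝ, 0 < η ∧ 4 ≤ t₀ ∧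
    ∀ t : ℝ, t₀ ≤ t → SL η A t → ∀ w : ℂ, 1 / 2 ≤ w.re → |w.im - t| ≤ R →
      ‖riemannZeta w‖ ≤ Real.exp (ε * Real.log t) := by
  set κ : ℝ := ε / 8 with hκ
  have hκ0 : 0 < κ := by positivity
  set H : ℝ := Real.sqrt ((6 + 4 * κ) / κ) with hH
  have hH0 : 0 < H := by positivity
  have hH2 : κ * H ^ 2 = 6 + 4 * κ := by
    rw [hH, Real.sq_sqrt (by positivity)]; field_simp
  obtain ⟨t1, ht1, hG⟩ := zeta_growth_win (R + H) (by positivity)
  obtain ⟨C, hC, hright⟩ := zeta_right_bounds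
  obtain ⟨t2, ht2, hlg⟩ := log_large (max 2 (2 * Real.log C / ε))
  refine ⟨ε / 2, R + H, max (max t1 t2) (R + H + 4), by positivity, ?_, ?_⟩
  · exact le_trans (by linarith) (le_max_right _ _)
  intro t ht hSL w hw1 hw2
  have h1 : t1 ≤ t := ((le_max_left _ _).trans (le_max_left _ _)).trans ht
  have h2 : t2 ≤ t := ((le_max_right _ _).trans (le_max_left _ _)).trans ht
  have h3 : R + H + 4 ≤ t := (le_max_right _ _).trans ht
  have hℓ := hlg t h2
  set ℓ := Real.log t with hℓd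
  have c1 : 2 ≤ ℓ := (le_max_left _ _).trans hℓ
  have c2 : 2 * Real.log C ≤ ε * ℓ := by
    have := (le_max_right _ _).trans hℓ
    rw [div_le_iff₀ hε] at this
    linarith
  have hℓ0 : 0 < ℓ := by linarith
  have hCe : C = Real.exp (Real.log C) := by rw [Real.exp_log (by linarith)]
  have hC0 : 0 ≤ Real.log C := Real.log_nonneg hC
  rcases le_or_gt w.re 2 with hw3 | hw3
  swap
  · have h4 := (hright w (by linarith)).2.1
    rw [hCe] at h4
    exact h4.trans (Real.exp_le_exp.2 (by linarith))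
  have hwin : ∀ z : ℂ, |z.im - w.im| ≤ H → |z.im - t| ≤ R + H := by
    intro z hz
    calc |z.im - t| = |(z.im - w.im) + (w.im - t)| := by congr 1; ring
      _ ≤ |z.im - w.im| + |w.im - t| := abs_add_le _ _
      _ ≤ R + H := by linarith
  refine three_m (w1 := w) (σ1 := 1 / 2) (σ2 := 2) (h := H) (ℓ := ℓ) (κ := κ)
    (A := ε / 2 * ℓ) (B := Real.log C) (G := 3 * ℓ) (m := 0) (D := 2) hℓ0 hκ0 hH0
    le_rfl (by norm_num) hw1 hw3 (by norm_num) (by norm_num) ?_ ?_ ?_ ?_ ?_ ?_ ?_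
  · intro z _ _ hz3
    have := abs_le.1 (hwin z hz3)
    exact differentiableAt_riemannZeta (ne_one_of_im (by linarith))
  · intro z hz1 hz3
    have e : z = ⟨1 / 2, z.im⟩ := by
      apply Complex.ext
      · simp only [hz1]
      · rfl
    rw [e]
    exact hSL z.im (hwin z hz3)
  · intro z hz1 hz3
    rw [← hCe]
    exact (hright z (by linarith)).2.1
  · intro z hz1 _ hz3
    exact hG t h1 z (by linarith) (hwin z hz3)
  · have e : (2 : ℝ) ^ 2 * κ = ε / 2 := by rw [hκ]; ring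
    rw [e]
    linarith
  · have e : (2 : ℝ) ^ 2 * κ = ε / 2 := by rw [hκ]; ring
    rw [e]
    linarith
  · have e : (2 : ℝ) + 2 ^ 2 * κ - κ * H ^ 2 = -4 := by rw [hH2]; ring
    rw [e]
    have : 0 ≤ ε * ℓ := by positivity
    linarith

/-- counting zeros in a window by Jensen's formula -/
theorem cover_count (x0 ε : ℝ) (hx0 : 2 ≤ x0) (hε : 0 < ε) (hε1 : ε ≤ 1 / 2) : ∃ C : ℝ, 0 < C ∧
    ∀ (f : ℂ → ℂ) (t a : ℝ), 0 ≤ a →
    (∀ z : ℂ, 1 / 2 + ε / 2 ≤ z.re → z.re ≤ 2 * x0 - 1 / 2 → |z.im - t| ≤ x0 + 2 →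
      AnalyticAt ℂ f z ∧ ‖f z‖ ≤ Real.exp a) →
    (∀ y : ℝ, |y - t| ≤ 2 → Real.exp (-a) ≤ ‖f ⟨x0, y⟩‖) →
    ZL f {z | 1 / 2 + ε ≤ z.re ∧ z.re ≤ x0 ∧ |z.im - t| ≤ 1} (C * a) := by
  obtain ⟨C, hC, hJ⟩ := jensen_ZL (x0 - 1 / 2 - ε / 2) (x0 - 1 / 2 - 3 / 4 * ε) (by linarith)
    (by linarith)
  obtain ⟨N, hN⟩ := exists_nat_gt (4 / ε)
  rw [div_lt_iff₀ hε] at hN
  set M : ℕ := N + 1 with hM
  refine ⟨M * C, by positivity, fun f t a ha hf hc => ?_⟩
  set d : ℝ := 2 / N with hd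
  have hN0 : 0 < (N : ℝ) := by
    have : 0 < (N : ℝ) * ε := by linarith
    exact pos_of_mul_pos_left this hε.le
  have hd0 : 0 < d := by positivity
  have hNd : (N : ℝ) * d = 2 := by rw [hd]; field_simp
  have hdε : d ≤ ε / 2 := by
    rw [hd, div_le_iff₀ hN0]
    linarith
  have h1 : ∀ k < M, ZL f (closedBall ⟨x0, t - 1 + k * d⟩ (x0 - 1 / 2 - 3 / 4 * ε)) (C * a) := by
    intro k hk
    have hk' : (k : ℝ) ≤ N := by exact_mod_cast (by omega : k ≤ N)
    have hkd : (k : ℝ) * d ≤ 2 := by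
      rw [← hNd]; gcongr
    have hkd0 : 0 ≤ (k : ℝ) * d := by positivity
    have hmem : ∀ z ∈ closedBall (⟨x0, t - 1 + k * d⟩ : ℂ) (x0 - 1 / 2 - ε / 2),
        1 / 2 + ε / 2 ≤ z.re ∧ z.re ≤ 2 * x0 - 1 / 2 ∧ |z.im - t| ≤ x0 + 2 := by
      intro z hz
      obtain ⟨h1, h2⟩ := cball_coords hz
      simp only at h1 h2
      have h1' := abs_le.1 h1
      have h2' := abs_le.1 h2
      refine ⟨by linarith, by linarith, ?_⟩
      rw [abs_le]; constructor <;> linarith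
    refine hJ f ⟨x0, t - 1 + k * d⟩ a ha ?_ ?_ ?_
    · intro z hz
      obtain ⟨h1, h2, h3⟩ := hmem z hz
      exact (hf z h1 h2 h3).1
    · intro z hz
      obtain ⟨h1, h2, h3⟩ := hmem z hz
      exact (hf z h1 h2 h3).2
    · apply hc
      rw [abs_le]; constructor <;> linarith
  have h2 := ZL.iUnion M h1
  refine h2.mono ?_ (le_of_eq (by ring))
  rintro z ⟨hz1, hz2, hz3⟩
  have hz3' := abs_le.1 hz3
  -- the window
  set k : ℕ := ⌊(z.im - (t - 1)) / d⌋₊ with hk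
  have hq0 : 0 ≤ (z.im - (t - 1)) / d := div_nonneg (by linarith) hd0.le
  have hk1 := Nat.floor_le hq0
  have hk2 := Nat.lt_floor_add_one ((z.im - (t - 1)) / d)
  rw [← hk] at hk1 hk2
  rw [le_div_iff₀ hd0] at hk1
  rw [div_lt_iff₀ hd0] at hk2
  have hkM : k < M := by
    have h3 : (k : ℝ) ≤ N := by
      have h4 : (k : ℝ) * d ≤ N * d := by rw [hNd]; linarith
      exact le_of_mul_le_mul_right h4 hd0
    have : k ≤ N := by exact_mod_cast h3
    omega
  simp only [mem_iUnion]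
  refine ⟨k, hkM, ?_⟩
  rw [mem_closedBall, dist_eq_norm]
  have e1 : ‖z - ⟨x0, t - 1 + k * d⟩‖ ^ 2 = (z.re - x0) ^ 2 + (z.im - (t - 1 + k * d)) ^ 2 := by
    rw [← Complex.normSq_eq_norm_sq, Complex.normSq_apply]
    simp only [sub_re, sub_im]
    ring
  refine abs_le_of_sq_le_sq' ?_ (by linarith) |>.2
  rw [e1]
  have e2 : (z.re - x0) ^ 2 ≤ (x0 - 1 / 2 - ε) ^ 2 := by
    have h5 : 0 ≤ x0 - z.re := by linarith
    have h6 : x0 - z.re ≤ x0 - 1 / 2 - ε := by linarith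
    nlinarith
  have e3 : (z.im - (t - 1 + k * d)) ^ 2 ≤ (ε / 2) ^ 2 := by
    have h5 : 0 ≤ z.im - (t - 1 + k * d) := by linarith
    have h6 : z.im - (t - 1 + k * d) ≤ ε / 2 := by linarith
    nlinarith
  nlinarith

/-- zeros of `TT l Zf` to the right of `1/2 + ε` are to the left of `2` -/
theorem F_zero_re (l : List ℂ) (ε : ℝ) (hε : 0 < ε) : ∃ t₀ : ℝ, 4 ≤ t₀ ∧ ∀ w : ℂ,
    1 / 2 + ε ≤ w.re → t₀ ≤ w.im → TT l Zf w = 0 → w.re ≤ 1 + ε := by
  obtain ⟨t₀, ht₀, h⟩ := F_to_zeta l (min ε 1) (by positivity)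
  refine ⟨t₀, ht₀, fun w hw1 hw2 hw3 => ?_⟩
  have hm : min ε 1 ≤ ε := min_le_left _ _
  have hm1 : min ε 1 ≤ 1 := min_le_right _ _
  obtain ⟨z, hz1, hz2, hz3⟩ := h w (by linarith) hw2 hw3
  by_contra hcon
  push Not at hcon
  have hz4 := abs_le.1 hz3
  have h5 : 1 ≤ z.re := by linarith
  exact (Zf_logDeriv (by linarith) (by linarith) (riemannZeta_ne_zero_of_one_le_re h5)).1 hz1

/-- Small values of `ζ` imply few zeros of `TT l Zf`. -/
theorem conv_F (l : List ℂ) (ε : ℝ) (hε : 0 < ε) (hε1 : ε ≤ 1 / 2) : ∃ η A t₀ : ℝ, 0 < η ∧ 4 ≤ t₀ ∧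
    ∀ t : ℝ, t₀ ≤ t → SL η A t →
      ZL (TT l Zf) {w | 1 / 2 + ε ≤ w.re ∧ |w.im - t| ≤ 1} (ε * Real.log t) := by
  obtain ⟨C, hC, hcount⟩ := cover_count 2 ε le_rfl hε hε1
  -- the loss
  set a0 : ℝ := ε / C with ha0
  have ha00 : 0 < a0 := by positivity
  set ρ : ℝ := min (ε / 4) (a0 / 4) with hρ
  have hρ0 : 0 < ρ := by positivity
  have hρ1 : ρ ≤ ε / 4 := min_le_left _ _
  have hρ2 : ρ ≤ a0 / 4 := min_le_right _ _
  obtain ⟨C1, hC1, hT⟩ := TT_bound l ρ (ρ / 2) (by linarith)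
  obtain ⟨K, hK, hX⟩ := XX_exp
  obtain ⟨η, A, t1, hη, ht1, hline⟩ := right_of_line (a0 / 4) 5 (by positivity) (by norm_num)
  obtain ⟨t2, ht2, hzre⟩ := F_zero_re l ε hε
  obtain ⟨t3, ht3, hR⟩ := F_right l (a0 / 4) (by positivity)
  obtain ⟨t4, ht4, hlg⟩ := log_large (max 2 (4 * (|Real.log C1| + K + 8 + a0) / a0))
  refine ⟨η, A, max (max t1 (t2 + 1)) (max (t3 + 2) (t4 + 14)), hη, ?_, ?_⟩
  · exact le_trans (by linarith) (le_trans (le_max_right _ _) (le_max_right _ _))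
  intro t ht hSL
  have k1 : t1 ≤ t := ((le_max_left _ _).trans (le_max_left _ _)).trans ht
  have k2 : t2 + 1 ≤ t := ((le_max_right _ _).trans (le_max_left _ _)).trans ht
  have k3 : t3 + 2 ≤ t := ((le_max_left _ _).trans (le_max_right _ _)).trans ht
  have k4 : t4 + 14 ≤ t := ((le_max_right _ _).trans (le_max_right _ _)).trans ht
  have hℓ := hlg t (by linarith)
  set ℓ := Real.log t with hℓd
  have c1 : 2 ≤ ℓ := (le_max_left _ _).trans hℓ
  have c2 : 4 * (|Real.log C1| + K + 8 + a0) ≤ a0 * ℓ := by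
    have := (le_max_right _ _).trans hℓ
    rw [div_le_iff₀ ha00] at this
    linarith
  have c4 := le_abs_self (Real.log C1)
  have c5 := abs_nonneg (Real.log C1)
  have hℓ0 : 0 < ℓ := by linarith
  have hζ := hline t k1 hSL
  set F : ℂ → ℂ := TT l Zf with hF
  have hFd : DifferentiableOn ℂ F {w : ℂ | 0 < w.im} := TT_diff uhp_open l Zf_diffOn
  set f : ℂ → ℂ := fun w => F w * Complex.exp (-(ℓ : ℂ) * (w - 1 / 2)) with hf
  have hfn : ∀ w : ℂ, ‖f w‖ = ‖F w‖ * Real.exp (-(ℓ * (w.re - 1 / 2))) := by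
    intro w
    simp only [hf]
    rw [norm_mul, Complex.norm_exp]
    congr 2
    have : -(ℓ : ℂ) * (w - 1 / 2) = ((-ℓ : ℝ) : ℂ) * (w - ((1 / 2 : ℝ) : ℂ)) := by push_cast; ring
    rw [this, re_ofReal_mul, sub_re, ofReal_re]
    ring
  have hFan : ∀ z : ℂ, 0 < z.im → AnalyticAt ℂ F z := fun z hz =>
    hFd.analyticAt (uhp_open.mem_nhds hz)
  have hean : ∀ z : ℂ, AnalyticAt ℂ (fun w : ℂ => Complex.exp (-(ℓ : ℂ) * (w - 1 / 2))) z := by
    intro z; fun_prop
  have hlogz : ∀ z : ℂ, |z.im - t| ≤ 5 → |Real.log z.im - ℓ| ≤ 1 := fun z hz =>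
    log_near (by norm_num) (by linarith) (by linarith) hz
  have hcnt := hcount f t (a0 * ℓ) (by positivity)
    (by
      intro z hz1 hz2 hz3
      have hz3' := abs_le.1 hz3
      refine ⟨(hFan z (by linarith)).mul (hean z), ?_⟩
      have h1 := hT Zf z (Real.exp ((z.re - 1 / 2 + ρ) * ℓ + 4 + K + a0 / 4 * ℓ)) (Real.exp_pos _).le
        (Zf_diffOn.mono fun x hx => by
          have := abs_lt.1 (ball_coords hx).2
          have h4 : 0 < x.im := by linarith
          exact h4) (by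
        intro x hx
        obtain ⟨h2, h3⟩ := ball_coords hx
        have h2' := abs_lt.1 h2
        have h3' := abs_lt.1 h3
        have h5 : |x.im - t| ≤ 5 := by rw [abs_le]; constructor <;> linarith
        rw [Zf_eq (by linarith) (by linarith), norm_mul]
        have h4 := (hX x (by linarith) (by linarith) (by linarith)).1
        have h6 := hζ x (by linarith) h5
        have hlz := abs_le.1 (hlogz x h5)
        calc ‖XX x‖ * ‖riemannZeta x‖
            ≤ Real.exp ((x.re - 1 / 2) * Real.log x.im + K) * Real.exp (a0 / 4 * ℓ) := by gcongr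
          _ = Real.exp ((x.re - 1 / 2) * Real.log x.im + K + a0 / 4 * ℓ) := by rw [← Real.exp_add]
          _ ≤ _ := by
            apply Real.exp_le_exp.2
            have h7 : (x.re - 1 / 2) * Real.log x.im ≤ (z.re - 1 / 2 + ρ) * (ℓ + 1) :=
              mul_le_mul (by linarith) (by linarith) (by linarith) (by linarith)
            linarith) z (mem_ball_self (by positivity))
      rw [hfn]
      have hC1e : C1 = Real.exp (Real.log C1) := by rw [Real.exp_log hC1]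
      calc ‖F z‖ * Real.exp (-(ℓ * (z.re - 1 / 2)))
          ≤ (C1 * Real.exp ((z.re - 1 / 2 + ρ) * ℓ + 4 + K + a0 / 4 * ℓ)) *
            Real.exp (-(ℓ * (z.re - 1 / 2))) := by gcongr
        _ = Real.exp (Real.log C1 + ((z.re - 1 / 2 + ρ) * ℓ + 4 + K + a0 / 4 * ℓ) +
            -(ℓ * (z.re - 1 / 2))) := by
            rw [Real.exp_add (Real.log C1 + _), Real.exp_add (Real.log C1), ← hC1e]
        _ ≤ _ := by
            apply Real.exp_le_exp.2
            have h8 : ρ * ℓ ≤ a0 / 4 * ℓ := by gcongr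
            have h9 : 0 < a0 * ℓ := by positivity
            linarith)
    (by
      intro y hy
      have hy' := abs_le.1 hy
      have hre : (⟨2, y⟩ : ℂ).re = 2 := rfl
      have him : (⟨2, y⟩ : ℂ).im = y := rfl
      obtain ⟨g1, g2, g3⟩ := hR ⟨2, y⟩ (by rw [hre]; norm_num) (by rw [hre]; norm_num)
        (by rw [him]; linarith)
      rw [hfn, ← Real.le_log_iff_exp_le (by
        have := norm_pos_iff.2 g1
        positivity), Real.log_mul (norm_ne_zero_iff.2 g1) (Real.exp_pos _).ne', Real.log_exp]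
      rw [hre, him] at g2
      rw [hre]
      have hlz := abs_le.1 (hlogz ⟨2, y⟩ (by rw [him]; linarith))
      rw [him] at hlz
      have h6 := (abs_le.1 g2).1
      have h7 : a0 / 4 * Real.log y ≤ a0 / 4 * (ℓ + 1) := by gcongr; linarith
      have h9 : 0 < a0 * ℓ := by positivity
      linarith)
  have h1 : ZL F {z | 1 / 2 + ε ≤ z.re ∧ z.re ≤ 2 ∧ |z.im - t| ≤ 1} (C * (a0 * ℓ)) := by
    refine ZL.comp (f := f) (σ := id) Function.injective_id ?_ ?_ ?_ hcnt
    · intro z hz h0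
      simp only [id, hf]
      rw [h0, zero_mul]
    · intro z hz h0
      have := abs_le.1 hz.2.2
      exact (order_mul_exp (hFan z (by linarith)) (hean z) (Complex.exp_ne_zero _)).symm
    · intro z hz h0
      exact hz
  refine h1.mono' ?_ ?_
  · rintro z ⟨hz1, hz2⟩ h0
    have := abs_le.1 hz2
    exact ⟨hz1, by linarith [hzre z hz1 (by linarith) h0], hz2⟩
  · apply le_of_eq
    rw [ha0]
    field_simp

end Pool.Agent.N799.LH
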