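import Pool.Agent.N799.LH.Left

/-!
# The gain
-/

set_option autoImplicit false

open Complex Metric Set Filter Topology

namespace Pool.Agent.N799.LH

open Pool.Agent.N799.SP
open H345 (XX)

/-- size of `XX` in exponential form -/
theorem XX_exp : ∃ K : ℝ, 0 < K ∧ ∀ s : ℂ, 1 / 2 ≤ s.re → s.re ≤ 4 → 1 ≤ s.im →
    ‖XX s‖ ≤ Real.exp ((s.re - 1 / 2) * Real.log s.im + K) ∧
    Real.exp ((s.re - 1 / 2) * Real.log s.im - K) ≤ ‖XX s‖ := by
  obtain ⟨K, hK, h⟩ := log_XX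
  refine ⟨K, hK, fun s h1 h2 h3 => ?_⟩
  have h4 := abs_le.1 (h s h1 h2 h3)
  have h5 := norm_pos_iff.2 (H345.Chi.XX_ne (by linarith : 0 < s.re) h3)
  rw [← Real.log_le_iff_le_exp h5, ← Real.le_log_iff_exp_le h5]
  constructor <;> linarith

/-- The gain: few zeros of `TT l Zf` improve a bound for `ζ` to the right of the line. -/
theorem gain (l : List ℂ) (ε : ℝ) (hε : 0 < ε) (hε1 : ε ≤ 1 / 4) : ∃ η t₀ : ℝ, 0 < η ∧ 4 ≤ t₀ ∧
    ∀ y μ : ℝ, t₀ ≤ y → 0 ≤ μ →
    ZL (TT l Zf) {w | 1 / 2 + η ≤ w.re ∧ |w.im - y| ≤ 3} (η * Real.log y) →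
    (∀ w : ℂ, 1 / 2 ≤ w.re → |w.im - y| ≤ 1 → ‖riemannZeta w‖ ≤ Real.exp (μ * Real.log y)) →
    ∀ w : ℂ, w.im = y → 1 / 2 + 2 * ε ≤ w.re → w.re ≤ 2 →
      ‖riemannZeta w‖ ≤ Real.exp (max (3 * ε) (μ + 3 * ε - (w.re - 1 / 2)) * Real.log y) := by
  obtain ⟨η0, t1, hη0, ht1, hF⟩ := F_small l (ε / 2) (by positivity) (by linarith)
  obtain ⟨K, hK, hX⟩ := XX_exp
  obtain ⟨C1, hC1, hrec⟩ := recon l 4 (by norm_num) (ε / 2) (by positivity)
  obtain ⟨t2, ht2, hlg⟩ := log_large (max 2 ((Real.log C1 + 2 * K + 4) / ε))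
  refine ⟨η0 / 2, max (t1 + 1) (max t2 4), by positivity,
    (le_max_right _ _).trans' (le_max_right _ _), ?_⟩
  intro y μ hy hμ hZ hζ w hwy hw1 hw2
  have hyt1 : t1 + 1 ≤ y := (le_max_left _ _).trans hy
  have hyt2 : t2 ≤ y := ((le_max_left _ _).trans (le_max_right _ _)).trans hy
  have hy4 : 4 ≤ y := ((le_max_right _ _).trans (le_max_right _ _)).trans hy
  have hℓ := hlg y hyt2
  set ℓ := Real.log y with hℓd
  have c1 : 2 ≤ ℓ := (le_max_left _ _).trans hℓ
  have c2 : Real.log C1 + 2 * K + 4 ≤ ε * ℓ := by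
    have := (le_max_right _ _).trans hℓ
    rw [div_le_iff₀ hε] at this
    linarith
  have hℓ0 : 0 < ℓ := by linarith
  have hlog : ∀ z : ℂ, |z.im - y| ≤ 1 → |Real.log z.im - ℓ| ≤ 1 := fun z hz =>
    log_near (by norm_num) (by linarith) (by linarith) hz
  set Ω : Set ℂ := Rc (1 / 2 + ε) (w.re + ε) y ε with hΩ
  set c : ℂ := ⟨1 / 2 + 3 / 2 * ε, y⟩ with hc
  have hcre : c.re = 1 / 2 + 3 / 2 * ε := rfl
  have hcim : c.im = y := rfl
  have hΩm : ∀ z ∈ Ω, 1 / 2 + ε < z.re ∧ z.re < w.re + ε ∧ |z.im - y| < ε := fun z hz => hz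
  have hwm : w ∈ Ω := ⟨by linarith, by linarith, by rw [hwy]; simpa using hε⟩
  have hball : ball c (ε / 2) ⊆ Ω := by
    intro z hz
    obtain ⟨h1, h2⟩ := ball_coords hz
    rw [hcre] at h1
    rw [hcim] at h2
    have h1' := abs_lt.1 h1
    exact ⟨by linarith, by linarith, by linarith⟩
  set E : ℝ := max (w.re - 1 / 2 + 3 / 2 * ε) (2 * ε + μ) with hE
  have hE1 : w.re - 1 / 2 + 3 / 2 * ε ≤ E := le_max_left _ _
  have hE2 : 2 * ε + μ ≤ E := le_max_right _ _
  -- the bound for `F` on `Ω`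
  have hFb : ∀ z ∈ Ω, ‖TT l Zf z‖ ≤ Real.exp (E * ℓ + (K + 3)) := by
    intro z hz
    obtain ⟨h1, h2, h3⟩ := hΩm z hz
    have h3' := abs_lt.1 h3
    have hlz := abs_le.1 (hlog z (by linarith))
    have h4 := hF z.im (by linarith) (hZ.mono (by
      rintro x ⟨k1, k2⟩
      refine ⟨by linarith, ?_⟩
      calc |x.im - y| = |(x.im - z.im) + (z.im - y)| := by congr 1; ring
        _ ≤ |x.im - z.im| + |z.im - y| := abs_add_le _ _
        _ ≤ 3 := by linarith) (by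
      -- `η0 / 2 * ℓ ≤ η0 * log z.im`
      have : ℓ ≤ 2 * Real.log z.im := by linarith
      calc η0 / 2 * ℓ ≤ η0 / 2 * (2 * Real.log z.im) := by gcongr
        _ = η0 * Real.log z.im := by ring)) z rfl (by linarith) (by linarith)
    refine h4.trans (Real.exp_le_exp.2 ?_)
    have h5 : (z.re - 1 / 2 + ε / 2) * Real.log z.im ≤ (w.re - 1 / 2 + 3 / 2 * ε) * (ℓ + 1) := by
      exact mul_le_mul (by linarith) (by linarith) (by linarith) (by linarith)
    have h6 : (w.re - 1 / 2 + 3 / 2 * ε) * ℓ ≤ E * ℓ := mul_le_mul_of_nonneg_right hE1 hℓ0.le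
    linarith
  have hcoef : 0 ≤ Real.exp (E * ℓ + (K + 3)) := (Real.exp_pos _).le
  have hZb : ∀ z ∈ ball c (ε / 2), ‖Zf z‖ ≤ Real.exp (E * ℓ + (K + 3)) := by
    intro z hz
    obtain ⟨h1, h2⟩ := ball_coords hz
    rw [hcre] at h1
    rw [hcim] at h2
    have h1' := abs_lt.1 h1
    have h2' := abs_lt.1 h2
    rw [Zf_eq (by linarith) (by linarith), norm_mul]
    have h3 := (hX z (by linarith) (by linarith) (by linarith)).1
    have h4 := hζ z (by linarith) (by linarith)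
    have hlz := abs_le.1 (hlog z (by linarith))
    calc ‖XX z‖ * ‖riemannZeta z‖
        ≤ Real.exp ((z.re - 1 / 2) * Real.log z.im + K) * Real.exp (μ * ℓ) := by gcongr
      _ = Real.exp ((z.re - 1 / 2) * Real.log z.im + K + μ * ℓ) := by rw [← Real.exp_add]
      _ ≤ _ := by
        apply Real.exp_le_exp.2
        have h5 : (z.re - 1 / 2) * Real.log z.im ≤ (2 * ε) * (ℓ + 1) := by
          exact mul_le_mul (by linarith) (by linarith) (by linarith) (by linarith)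
        have h6 : (2 * ε + μ) * ℓ ≤ E * ℓ := by gcongr
        linarith
  have h1 := hrec Ω Zf c _ (Rc_open _ _ _ _) (Rc_convex _ _ _ _) hcoef
    (Zf_diffOn.mono fun z hz => by
      have := abs_lt.1 (hΩm z hz).2.2
      have h4 : 0 < z.im := by linarith
      exact h4) hball (fun z hz => by
      obtain ⟨h1, h2, h3⟩ := hΩm z hz
      refine (Complex.norm_le_abs_re_add_abs_im _).trans ?_
      rw [sub_re, sub_im, hcre, hcim]
      have h4 : |z.re - (1 / 2 + 3 / 2 * ε)| ≤ 3 := by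
        rw [abs_le]; constructor <;> linarith
      linarith) hFb hZb w hwm
  rw [Zf_eq (by linarith) (by linarith), norm_mul] at h1
  have h2 := (hX w (by linarith) (by linarith) (by linarith)).2
  rw [hwy] at h2
  have h3 : Real.exp ((w.re - 1 / 2) * ℓ - K) * ‖riemannZeta w‖ ≤
      C1 * Real.exp (E * ℓ + (K + 3)) := by
    refine le_trans ?_ h1
    gcongr
  have h4 : ‖riemannZeta w‖ ≤ C1 * Real.exp (E * ℓ + (K + 3)) *
      Real.exp (-((w.re - 1 / 2) * ℓ - K)) := by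
    rw [Real.exp_neg, ← div_eq_mul_inv, le_div_iff₀ (Real.exp_pos _)]
    linarith
  refine h4.trans ?_
  have h5 : C1 = Real.exp (Real.log C1) := by rw [Real.exp_log (by linarith)]
  rw [h5, ← Real.exp_add, ← Real.exp_add]
  apply Real.exp_le_exp.2
  have h6 : E - (w.re - 1 / 2) + ε ≤ max (3 * ε) (μ + 3 * ε - (w.re - 1 / 2)) := by
    rcases le_total (w.re - 1 / 2 + 3 / 2 * ε) (2 * ε + μ) with h | h
    · have : E = 2 * ε + μ := max_eq_right h
      rw [this]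
      exact le_trans (by linarith) (le_max_right _ _)
    · have : E = w.re - 1 / 2 + 3 / 2 * ε := max_eq_left h
      rw [this]
      exact le_trans (by linarith) (le_max_left _ _)
  have h7 : (E - (w.re - 1 / 2) + ε) * ℓ ≤ max (3 * ε) (μ + 3 * ε - (w.re - 1 / 2)) * ℓ := by gcongr
  linarith

end Pool.Agent.N799.LH
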