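import Pool.Agent.N799.LH.Gain

/-!
# Iterating the gain
-/

set_option autoImplicit false

open Complex Metric Set Filter Topology

namespace Pool.Agent.N799.LH

open Pool.Agent.N799.SP
open H345 (XX)

/-- few zeros of `TT l Zf` near height `t` imply `ζ ≪ t ^ μ` near height `t` -/
def PP (l : List ℂ) (μ : ℝ) : Prop := ∀ R : ℝ, 0 < R → ∃ η A t₀ : ℝ, 0 < η ∧ 4 ≤ t₀ ∧
  ∀ t : ℝ, t₀ ≤ t → ZL (TT l Zf) {w | 1 / 2 + η ≤ w.re ∧ |w.im - t| ≤ A} (η * Real.log t) →
  ∀ w : ℂ, 1 / 2 ≤ w.re → |w.im - t| ≤ R → ‖riemannZeta w‖ ≤ Real.exp (μ * Real.log t)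

theorem PP_mono (l : List ℂ) {μ μ' : ℝ} (h : μ ≤ μ') (hP : PP l μ) : PP l μ' := by
  intro R hR
  obtain ⟨η, A, t₀, hη, ht₀, h1⟩ := hP R hR
  refine ⟨η, A, t₀, hη, ht₀, fun t ht hZ w hw1 hw2 => (h1 t ht hZ w hw1 hw2).trans ?_⟩
  apply Real.exp_le_exp.2
  have : 0 ≤ Real.log t := Real.log_nonneg (by linarith)
  gcongr

/-- growth of zeta in exponential form, in a window -/
theorem zeta_growth_win (R : ℝ) (hR : 0 < R) : ∃ t₀ : ℝ, 4 ≤ t₀ ∧ ∀ t : ℝ, t₀ ≤ t → ∀ w : ℂ,
    -(1 / 2) ≤ w.re → |w.im - t| ≤ R → ‖riemannZeta w‖ ≤ Real.exp (3 * Real.log t) := by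
  obtain ⟨C, hC, h⟩ := zeta_growth
  obtain ⟨t1, ht1, hlg⟩ := log_large (Real.log (4 * C))
  refine ⟨max (max t1 4) (R + 1), (le_max_right _ _).trans (le_max_left _ _), ?_⟩
  intro t ht w hw1 hw2
  have h1 : t1 ≤ t := ((le_max_left _ _).trans (le_max_left _ _)).trans ht
  have h2 : 4 ≤ t := ((le_max_right _ _).trans (le_max_left _ _)).trans ht
  have h3 : R + 1 ≤ t := (le_max_right _ _).trans ht
  have h4 := abs_le.1 hw2
  refine (h w hw1 (by linarith)).trans ?_
  have h5 := hlg t h1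
  have h6 : 0 ≤ w.im := by linarith
  calc C * w.im ^ 2 ≤ C * (2 * t) ^ 2 := by
        gcongr
        linarith
    _ = (4 * C) * t ^ 2 := by ring
    _ = Real.exp (Real.log (4 * C)) * Real.exp (Real.log t) ^ 2 := by
        rw [Real.exp_log (by positivity), Real.exp_log (by linarith)]
    _ = Real.exp (Real.log (4 * C) + 2 * Real.log t) := by
        rw [Real.exp_add, ← Real.exp_nat_mul]; norm_num
    _ ≤ _ := Real.exp_le_exp.2 (by linarith)

theorem PP_three (l : List ℂ) : PP l 3 := by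
  intro R hR
  obtain ⟨t₀, ht₀, h⟩ := zeta_growth_win R hR
  exact ⟨1, 1, t₀, one_pos, ht₀, fun t ht _ w hw1 hw2 => h t ht w (by linarith) hw2⟩

/-- convexity between `1/2 - h` and `1/2 + h`, in a window, from a bound at `1/2 + h` -/
theorem convex_step (ε h R : ℝ) (hε : 0 < ε) (hh : 0 < h) (hh1 : h ≤ 1) (hR : 0 < R) :
    ∃ H t₀ : ℝ, 0 < H ∧ 4 ≤ t₀ ∧ ∀ t E : ℝ, t₀ ≤ t → 0 ≤ E →
      (∀ w : ℂ, w.re = 1 / 2 + h → |w.im - t| ≤ R + H →
        ‖riemannZeta w‖ ≤ Real.exp (E * Real.log t)) →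
      ∀ w : ℂ, 1 / 2 - h ≤ w.re → w.re ≤ 1 / 2 + h → |w.im - t| ≤ R →
        ‖riemannZeta w‖ ≤ Real.exp ((E + 1 / 2 * (1 / 2 + h - w.re) + ε) * Real.log t) := by
  set κ : ℝ := ε / 36 with hκ
  have hκ0 : 0 < κ := by positivity
  set H : ℝ := Real.sqrt ((6 + 36 * κ) / κ) with hH
  have hH0 : 0 < H := by positivity
  have hH2 : κ * H ^ 2 = 6 + 36 * κ := by
    rw [hH, Real.sq_sqrt (by positivity)]; field_simp
  obtain ⟨K, hK, hX⟩ := XX_exp
  obtain ⟨t1, ht1, hG⟩ := zeta_growth_win (R + H) (by positivity)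
  obtain ⟨t2, ht2, hlg⟩ := log_large (max 2 (2 * (K + 2) / ε))
  refine ⟨H, max (max t1 t2) (2 * (R + H) + 4), hH0, ?_, ?_⟩
  · exact le_trans (by linarith) (le_max_right _ _)
  intro t E ht hE hB w hw1 hw2 hw3
  have h1 : t1 ≤ t := ((le_max_left _ _).trans (le_max_left _ _)).trans ht
  have h2 : t2 ≤ t := ((le_max_right _ _).trans (le_max_left _ _)).trans ht
  have h3 : 2 * (R + H) + 4 ≤ t := (le_max_right _ _).trans ht
  have hℓ := hlg t h2
  set ℓ := Real.log t with hℓd
  have c1 : 2 ≤ ℓ := (le_max_left _ _).trans hℓ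
  have c2 : 2 * (K + 2) ≤ ε * ℓ := by
    have := (le_max_right _ _).trans hℓ
    rw [div_le_iff₀ hε] at this
    linarith
  have hℓ0 : 0 < ℓ := by linarith
  have hwin : ∀ z : ℂ, |z.im - w.im| ≤ H → |z.im - t| ≤ R + H := by
    intro z hz
    calc |z.im - t| = |(z.im - w.im) + (w.im - t)| := by congr 1; ring
      _ ≤ |z.im - w.im| + |w.im - t| := abs_add_le _ _
      _ ≤ R + H := by linarith
  have him : ∀ z : ℂ, |z.im - w.im| ≤ H → 2 ≤ z.im := by
    intro z hz
    have := abs_le.1 (hwin z hz)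
    linarith
  refine three_m (w1 := w) (σ1 := 1 / 2 - h) (σ2 := 1 / 2 + h) (h := H) (ℓ := ℓ) (κ := κ)
    (A := (E + h) * ℓ + (K + 1)) (B := E * ℓ) (G := 3 * ℓ) (m := 1 / 2) (D := 2) hℓ0 hκ0 hH0
    (by norm_num) (by norm_num) hw1 hw2 (by linarith) (by linarith) ?_ ?_ ?_ ?_ ?_ ?_ ?_
  · intro z _ _ hz3
    exact differentiableAt_riemannZeta (ne_one_of_im (by linarith [him z hz3]))
  · intro z hz1 hz3
    have hz2 := him z hz3
    have hzw := hwin z hz3
    have e : z = ⟨1 - (1 / 2 + h), z.im⟩ := by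
      apply Complex.ext
      · simp only [hz1]; ring
      · rfl
    have hzp : (⟨1 / 2 + h, z.im⟩ : ℂ).re = 1 / 2 + h := rfl
    have hzq : (⟨1 / 2 + h, z.im⟩ : ℂ).im = z.im := rfl
    rw [e, norm_zeta_refl, Zf_eq (by rw [hzp]; linarith) (by rw [hzq]; linarith), norm_mul]
    have k1 := (hX ⟨1 / 2 + h, z.im⟩ (by rw [hzp]; linarith) (by rw [hzp]; linarith)
      (by rw [hzq]; linarith)).1
    rw [hzp, hzq] at k1
    have k2 := hB ⟨1 / 2 + h, z.im⟩ rfl hzw
    have k3 := abs_le.1 (log_near (h := R + H) (by positivity) (by linarith) (by linarith) hzw)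
    calc ‖XX ⟨1 / 2 + h, z.im⟩‖ * ‖riemannZeta ⟨1 / 2 + h, z.im⟩‖
        ≤ Real.exp ((1 / 2 + h - 1 / 2) * Real.log z.im + K) * Real.exp (E * ℓ) := by gcongr
      _ = Real.exp ((1 / 2 + h - 1 / 2) * Real.log z.im + K + E * ℓ) := by rw [← Real.exp_add]
      _ ≤ _ := by
        apply Real.exp_le_exp.2
        have h5 : h * Real.log z.im ≤ h * (ℓ + 1) := by
          gcongr
          linarith
        nlinarith
  · intro z hz1 hz3
    exact hB z hz1 (hwin z hz3)
  · intro z hz1 _ hz3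
    exact hG t h1 z (by linarith) (hwin z hz3)
  · have e : (2 : ℝ) ^ 2 * κ = ε / 9 := by rw [hκ]; ring
    rw [e]
    nlinarith
  · have e : (2 : ℝ) ^ 2 * κ = ε / 9 := by rw [hκ]; ring
    rw [e]
    nlinarith
  · have e : (2 : ℝ) + 2 ^ 2 * κ - κ * H ^ 2 = -4 - 32 * κ := by rw [hH2]; ring
    rw [e]
    have h5 : 0 ≤ (E + 1 / 2 * (1 / 2 + h - w.re) + ε) * ℓ := by
      have : 0 ≤ E + 1 / 2 * (1 / 2 + h - w.re) + ε := by linarith
      positivity
    nlinarith [mul_pos hℓ0 hκ0]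

/-- one step of the iteration -/
theorem PP_step (l : List ℂ) (ε : ℝ) (hε : 0 < ε) (hε1 : ε ≤ 1 / 12) (μ : ℝ) (hμ0 : 0 ≤ μ)
    (hμ3 : μ ≤ 3) (hP : PP l μ) : PP l (max (11 * ε) (μ - ε)) := by
  intro R hR
  set h : ℝ := 12 * ε with hh
  have hh1 : h ≤ 1 := by linarith
  obtain ⟨η2, t2, hη2, ht2, hgain⟩ := gain l ε hε (by linarith)
  obtain ⟨H, t3, hH, ht3, hconv⟩ := convex_step ε h R hε (by positivity) hh1 hR
  obtain ⟨η1, A1, t1, hη1, ht1, hP1⟩ := hP (R + H + 1) (by positivity)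
  obtain ⟨C, hC, hright⟩ := zeta_right_bounds
  obtain ⟨t4, ht4, hlg⟩ := log_large (max (max 2 (Real.log C / ε)) (4 * (4 + μ) / ε))
  refine ⟨min η1 (η2 / 2), max A1 (R + H + 3), max (max (max t1 (t2 + (R + H))) (max t3 t4))
    (2 * (R + H) + 4), by positivity, le_trans (by linarith) (le_max_right _ _), ?_⟩
  intro t ht hZ
  have k1 : t1 ≤ t := (((le_max_left _ _).trans (le_max_left _ _)).trans (le_max_left _ _)).trans ht
  have k2 : t2 + (R + H) ≤ t :=
    (((le_max_right _ _).trans (le_max_left _ _)).trans (le_max_left _ _)).trans ht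
  have k3 : t3 ≤ t := (((le_max_left _ _).trans (le_max_right _ _)).trans (le_max_left _ _)).trans ht
  have k4 : t4 ≤ t := (((le_max_right _ _).trans (le_max_right _ _)).trans (le_max_left _ _)).trans ht
  have k5 : 2 * (R + H) + 4 ≤ t := (le_max_right _ _).trans ht
  have hℓ := hlg t k4
  set ℓ := Real.log t with hℓd
  have c1 : 2 ≤ ℓ := ((le_max_left _ _).trans (le_max_left _ _)).trans hℓ
  have c2 : Real.log C ≤ ε * ℓ := by
    have := ((le_max_right _ _).trans (le_max_left _ _)).trans hℓ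
    rw [div_le_iff₀ hε] at this
    linarith
  have c3 : 4 * (4 + μ) ≤ ε * ℓ := by
    have := (le_max_right _ _).trans hℓ
    rw [div_le_iff₀ hε] at this
    linarith
  have hℓ0 : 0 < ℓ := by linarith
  have hold := hP1 t k1 (hZ.mono (by
    rintro x ⟨h1, h2⟩
    have : min η1 (η2 / 2) ≤ η1 := min_le_left _ _
    exact ⟨by linarith, h2.trans (le_max_left _ _)⟩) (by
      gcongr
      exact min_le_left _ _))
  -- the gain in the window
  have hnew : ∀ z : ℂ, 1 / 2 + 2 * ε ≤ z.re → z.re ≤ 2 → |z.im - t| ≤ R + H →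
      ‖riemannZeta z‖ ≤ Real.exp (max (4 * ε) (μ + 4 * ε - (z.re - 1 / 2)) * ℓ) := by
    intro z hz1 hz2 hz3
    have hz3' := abs_le.1 hz3
    have hlz := abs_le.1 (log_near (h := R + H) (by positivity) (by linarith) (by linarith) hz3)
    have hμ' : ∀ w : ℂ, 1 / 2 ≤ w.re → |w.im - z.im| ≤ 1 →
        ‖riemannZeta w‖ ≤ Real.exp ((μ + ε / 2) * Real.log z.im) := by
      intro w hw1 hw2
      refine (hold w hw1 ?_).trans (Real.exp_le_exp.2 ?_)
      · calc |w.im - t| = |(w.im - z.im) + (z.im - t)| := by congr 1; ring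
          _ ≤ |w.im - z.im| + |z.im - t| := abs_add_le _ _
          _ ≤ R + H + 1 := by linarith
      · have e1 : μ * ℓ ≤ μ * (Real.log z.im + 1) := by
          gcongr
          linarith
        have e2 : ε * ℓ ≤ ε * (2 * Real.log z.im) := by
          gcongr
          linarith
        nlinarith
    have h1 := hgain z.im (μ + ε / 2) (by linarith) (by positivity) (hZ.mono (by
      rintro x ⟨h1, h2⟩
      have : min η1 (η2 / 2) ≤ η2 := (min_le_right _ _).trans (by linarith)
      refine ⟨by linarith, le_trans ?_ (le_max_right _ _)⟩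
      calc |x.im - t| = |(x.im - z.im) + (z.im - t)| := by congr 1; ring
        _ ≤ |x.im - z.im| + |z.im - t| := abs_add_le _ _
        _ ≤ R + H + 3 := by linarith) (by
      calc min η1 (η2 / 2) * ℓ ≤ (η2 / 2) * (2 * Real.log z.im) := by
            gcongr
            · exact min_le_right _ _
            · linarith
        _ = η2 * Real.log z.im := by ring)) hμ' z rfl hz1 hz2
    refine h1.trans (Real.exp_le_exp.2 ?_)
    set M : ℝ := max (3 * ε) (μ + ε / 2 + 3 * ε - (z.re - 1 / 2)) with hM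
    have hM0 : 0 ≤ M := le_trans (by positivity) (le_max_left _ _)
    have hM4 : M ≤ 4 + μ := by
      apply max_le <;> linarith
    have e1 : M * Real.log z.im ≤ M * (ℓ + 1) := by
      gcongr
      linarith
    have e2 : M + ε / 2 ≤ max (4 * ε) (μ + 4 * ε - (z.re - 1 / 2)) := by
      rcases le_total (3 * ε) (μ + ε / 2 + 3 * ε - (z.re - 1 / 2)) with h | h
      · have : M = μ + ε / 2 + 3 * ε - (z.re - 1 / 2) := max_eq_right h
        rw [this]
        exact le_trans (by linarith) (le_max_right _ _)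
      · have : M = 3 * ε := max_eq_left h
        rw [this]
        exact le_trans (by linarith) (le_max_left _ _)
    have e3 : (M + ε / 2) * ℓ ≤ max (4 * ε) (μ + 4 * ε - (z.re - 1 / 2)) * ℓ := by gcongr
    linarith
  set E : ℝ := max (4 * ε) (μ + 4 * ε - h) with hE
  have hE0 : 0 ≤ E := le_trans (by positivity) (le_max_left _ _)
  have hEM : E + 7 * ε ≤ max (11 * ε) (μ - ε) := by
    rcases le_total (4 * ε) (μ + 4 * ε - h) with h' | h'
    · have : E = μ + 4 * ε - h := max_eq_right h'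
      rw [this]
      exact le_trans (by linarith) (le_max_right _ _)
    · have : E = 4 * ε := max_eq_left h'
      rw [this]
      exact le_trans (by linarith) (le_max_left _ _)
  have hc := hconv t E k3 hE0 (by
    intro w hw1 hw2
    have h1 := hnew w (by linarith) (by linarith) hw2
    have e : w.re - 1 / 2 = h := by rw [hw1]; ring
    rw [e] at h1
    exact h1)
  intro w hw1 hw2
  rcases le_or_gt w.re (1 / 2 + h) with hw3 | hw3
  · refine (hc w (by linarith) hw3 hw2).trans (Real.exp_le_exp.2 ?_)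
    have : E + 1 / 2 * (1 / 2 + h - w.re) + ε ≤ max (11 * ε) (μ - ε) := by linarith
    gcongr
  · rcases le_or_gt w.re 2 with hw4 | hw4
    · refine (hnew w (by linarith) hw4 (by linarith)).trans (Real.exp_le_exp.2 ?_)
      have : max (4 * ε) (μ + 4 * ε - (w.re - 1 / 2)) ≤ E := by
        apply max_le_max le_rfl
        linarith
      have h1 : max (4 * ε) (μ + 4 * ε - (w.re - 1 / 2)) ≤ max (11 * ε) (μ - ε) := by linarith
      gcongr
    · have h1 := (hright w (by linarith)).2.1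
      have h2 : C = Real.exp (Real.log C) := by rw [Real.exp_log (by linarith)]
      rw [h2] at h1
      refine h1.trans (Real.exp_le_exp.2 ?_)
      have : ε * ℓ ≤ max (11 * ε) (μ - ε) * ℓ := by
        gcongr
        exact le_trans (by linarith) (le_max_left _ _)
      linarith

/-- Few zeros imply the Lindelöf bound. -/
theorem PP_all (l : List ℂ) (μ : ℝ) (hμ : 0 < μ) : PP l μ := by
  set ε : ℝ := min (μ / 11) (1 / 12) with hε
  have hε0 : 0 < ε := by positivity
  have hε1 : ε ≤ 1 / 12 := min_le_right _ _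
  have hε2 : 11 * ε ≤ μ := by
    have : ε ≤ μ / 11 := min_le_left _ _
    linarith
  have hn : ∀ n : ℕ, PP l (max (11 * ε) (3 - n * ε)) := by
    intro n
    induction n with
    | zero =>
      refine PP_mono l ?_ (PP_three l)
      simp
    | succ n ih =>
      have h1 := PP_step l ε hε0 hε1 _ (le_trans (by positivity) (le_max_left _ _)) (by
        apply max_le
        · linarith
        · have : 0 ≤ (n : ℝ) * ε := by positivity
          linarith) ih
      refine PP_mono l ?_ h1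
      apply max_le (le_max_left _ _)
      rcases le_total (11 * ε) (3 - n * ε) with h | h
      · rw [max_eq_right h]
        refine le_trans ?_ (le_max_right _ _)
        push_cast
        linarith
      · rw [max_eq_left h]
        refine le_trans ?_ (le_max_left _ _)
        linarith
  obtain ⟨n, hn1⟩ := exists_nat_gt (3 / ε)
  refine PP_mono l ?_ (hn n)
  apply max_le hε2
  rw [div_lt_iff₀ hε0] at hn1
  linarith

end Pool.Agent.N799.LH
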