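import Pool.Agent.N799.LH.Back
import Pool.Agent.N799.LH.Three

/-!
# Few zeros of `TT l Zf` give a bound for `TT l Zf` and then for `ζ`
-/

set_option autoImplicit false

open Complex Metric Set Filter Topology

namespace Pool.Agent.N799.LH

open Pool.Agent.N799.SP
open H345 (XX)

/-- polynomial growth of `TT l Zf` -/
theorem F_growth' (l : List ℂ) : ∃ C : ℝ, 1 ≤ C ∧ ∀ w : ℂ, 1 / 2 ≤ w.re → w.re ≤ 15 / 4 → 2 ≤ w.im →
    ‖TT l Zf w‖ ≤ C * w.im ^ 6 := by
  obtain ⟨C1, hC1, h1⟩ := TT_bound l (1 / 4) (1 / 8) (by norm_num)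
  obtain ⟨C2, hC2, h2⟩ := Zf_growth
  refine ⟨max 1 (C1 * (C2 * 2 ^ 6)), le_max_left _ _, fun w hw1 hw2 hw3 => ?_⟩
  have h3 := h1 Zf w (C2 * (2 * w.im) ^ 6) (by positivity) (Zf_diffOn.mono fun z hz => by
      have := abs_lt.1 (ball_coords hz).2
      have h4 : 0 < z.im := by linarith
      exact h4) (fun z hz => by
      have h5 := abs_lt.1 (ball_coords hz).2
      have h6 := abs_lt.1 (ball_coords hz).1
      refine (h2 z (by linarith) (by linarith) (by linarith)).trans ?_
      have : z.im ≤ 2 * w.im := by linarith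
      have h0 : 0 ≤ z.im := by linarith
      gcongr) w (mem_ball_self (by norm_num))
  refine h3.trans ?_
  calc C1 * (C2 * (2 * w.im) ^ 6) = (C1 * (C2 * 2 ^ 6)) * w.im ^ 6 := by ring
    _ ≤ _ := by
      gcongr
      exact le_max_right _ _

theorem order_mul_exp {f g : ℂ → ℂ} {z : ℂ} (hf : AnalyticAt ℂ f z) (hg : AnalyticAt ℂ g z)
    (hg0 : g z ≠ 0) : analyticOrderNatAt (fun w => f w * g w) z = analyticOrderNatAt f z := by
  unfold analyticOrderNatAt
  have h1 : analyticOrderAt (fun w => f w * g w) z = analyticOrderAt f z + analyticOrderAt g z :=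
    analyticOrderAt_mul hf hg
  rw [h1, hg.analyticOrderAt_eq_zero.2 hg0, add_zero]

theorem cball_coords {w z : ℂ} {r : ℝ} (hz : z ∈ closedBall w r) :
    |z.re - w.re| ≤ r ∧ |z.im - w.im| ≤ r := by
  rw [mem_closedBall, dist_eq_norm] at hz
  have h1 := (abs_re_le_norm (z - w)).trans hz
  have h2 := (abs_im_le_norm (z - w)).trans hz
  rw [sub_re] at h1
  rw [sub_im] at h2
  exact ⟨h1, h2⟩

/-- few zeros of `TT l Zf` give its expected size -/
theorem F_small (l : List ℂ) (ε : ℝ) (hε : 0 < ε) (hε1 : ε ≤ 1 / 2) : ∃ η t₀ : ℝ, 0 < η ∧ 4 ≤ t₀ ∧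
    ∀ y : ℝ, t₀ ≤ y → ZL (TT l Zf) {w | 1 / 2 + η ≤ w.re ∧ |w.im - y| ≤ 2} (η * Real.log y) →
    ∀ w : ℂ, w.im = y → 1 / 2 + ε ≤ w.re → w.re ≤ 3 →
      ‖TT l Zf w‖ ≤ Real.exp ((w.re - 1 / 2 + ε) * Real.log y) := by
  obtain ⟨η0, L, hη0, hL, hfew⟩ := few_small (3 / 2 - ε / 2) (3 / 2 - ε) (1 / 4) 7 ε (by norm_num)
    (by linarith) (by linarith) (by norm_num) hε
  obtain ⟨t1, ht1, hR⟩ := F_right l (min (η0 / 2) ε) (by positivity)
  obtain ⟨C, hC, hG⟩ := F_growth' l
  obtain ⟨t2, ht2, hlg⟩ := log_large (max (max L (Real.log (64 * C))) (2 * (η0 / 2 + 2) / η0))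
  set η : ℝ := min η0 (ε / 2) with hη
  refine ⟨η, max (t1 + 1) (max t2 4), by positivity, (le_max_right _ _).trans' (le_max_right _ _),
    ?_⟩
  intro y hy hZ w hwy hw1 hw3
  have hyt1 : t1 + 1 ≤ y := (le_max_left _ _).trans hy
  have hyt2 : t2 ≤ y := ((le_max_left _ _).trans (le_max_right _ _)).trans hy
  have hy4 : 4 ≤ y := ((le_max_right _ _).trans (le_max_right _ _)).trans hy
  have hℓ := hlg y hyt2
  set ℓ := Real.log y with hℓd
  have c1 : L ≤ ℓ := ((le_max_left _ _).trans (le_max_left _ _)).trans hℓ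
  have c2 : Real.log (64 * C) ≤ ℓ := ((le_max_right _ _).trans (le_max_left _ _)).trans hℓ
  have c3 : 2 * (η0 / 2 + 2) ≤ η0 * ℓ := by
    have := (le_max_right _ _).trans hℓ
    rw [div_le_iff₀ hη0] at this
    linarith
  have hℓ0 : 0 < ℓ := by linarith
  rcases le_or_gt w.re 2 with hw2 | hw2
  swap
  · obtain ⟨g1, g2, g3⟩ := hR w (by linarith) hw3 (by rw [hwy]; linarith)
    rw [hwy] at g2
    have hm : min (η0 / 2) ε * ℓ ≤ ε * ℓ := by
      gcongr
      exact min_le_right _ _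
    rw [← Real.log_le_iff_le_exp (norm_pos_iff.2 g1)]
    have := (abs_le.1 g2).2
    linarith
  set F : ℂ → ℂ := TT l Zf with hF
  have hFd : DifferentiableOn ℂ F {w : ℂ | 0 < w.im} := TT_diff uhp_open l Zf_diffOn
  set f : ℂ → ℂ := fun w => F w * Complex.exp (-(ℓ : ℂ) * (w - 1 / 2)) with hf
  have hfn : ∀ w : ℂ, ‖f w‖ = ‖F w‖ * Real.exp (-(ℓ * (w.re - 1 / 2))) := by
    intro w
    simp only [hf]
    rw [norm_mul, Complex.norm_exp]
    congr 2
    have : -(ℓ : ℂ) * (w - 1 / 2) = ((-ℓ : ℝ) : ℂ) * (w - ((1 / 2 : ℝ) : ℂ)) := by push_cast; ring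
    rw [this, re_ofReal_mul, sub_re, ofReal_re]
    ring
  set c : ℂ := ⟨2, y⟩ with hc
  have hcre : c.re = 2 := rfl
  have hcim : c.im = y := rfl
  have hreg : ∀ z ∈ closedBall c (3 / 2 - ε / 2), 1 / 2 + ε / 2 ≤ z.re ∧ z.re ≤ 7 / 2 ∧
      |z.im - y| ≤ 3 / 2 ∧ 2 ≤ z.im ∧ z.im ≤ 2 * y := by
    intro z hz
    obtain ⟨h1, h2⟩ := cball_coords hz
    rw [hcre] at h1
    rw [hcim] at h2
    have h1' := abs_le.1 h1
    have h2' := abs_le.1 h2
    exact ⟨by linarith, by linarith, by linarith, by linarith, by linarith⟩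
  have hFan : ∀ z : ℂ, 0 < z.im → AnalyticAt ℂ F z := fun z hz =>
    hFd.analyticAt (uhp_open.mem_nhds hz)
  have hean : ∀ z : ℂ, AnalyticAt ℂ (fun w : ℂ => Complex.exp (-(ℓ : ℂ) * (w - 1 / 2))) z := by
    intro z; fun_prop
  have key := hfew ℓ c1 f c (fun z hz => (hFan z (by linarith [(hreg z hz).2.2.2.1])).mul (hean z))
    (by
      intro z hz
      obtain ⟨k1, k2, k3, k4, k5⟩ := hreg z hz
      rw [hfn]
      have h1 := hG z (by linarith) (by linarith) k4
      have h2 : Real.exp (-(ℓ * (z.re - 1 / 2))) ≤ 1 := by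
        rw [Real.exp_le_one_iff]
        have : 0 ≤ ℓ * (z.re - 1 / 2) := mul_nonneg hℓ0.le (by linarith)
        linarith
      have h3 : (2 * y) ^ 6 * C = 64 * C * y ^ 6 := by ring
      calc ‖F z‖ * Real.exp (-(ℓ * (z.re - 1 / 2))) ≤ (C * z.im ^ 6) * 1 := by gcongr
        _ ≤ (C * (2 * y) ^ 6) * 1 := by
          have : 0 ≤ z.im := by linarith
          gcongr
        _ = 64 * C * y ^ 6 := by ring
        _ = Real.exp (Real.log (64 * C)) * Real.exp ℓ ^ 6 := by
          rw [Real.exp_log (by positivity), hℓd, Real.exp_log (by linarith)]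
        _ = Real.exp (Real.log (64 * C) + 6 * ℓ) := by
          rw [Real.exp_add, ← Real.exp_nat_mul]; norm_num
        _ ≤ Real.exp (7 * ℓ) := Real.exp_le_exp.2 (by linarith))
    (by
      intro z hz
      obtain ⟨h1, h2⟩ := cball_coords hz
      rw [hcre] at h1
      rw [hcim] at h2
      have h1' := abs_le.1 h1
      have h2' := abs_le.1 h2
      obtain ⟨g1, g2, g3⟩ := hR z (by linarith) (by linarith) (by linarith)
      refine ⟨mul_ne_zero g1 (Complex.exp_ne_zero _), ?_⟩
      rw [hfn, ← Real.log_le_iff_le_exp (by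
        have := norm_pos_iff.2 g1
        positivity), Real.log_mul (norm_ne_zero_iff.2 g1) (Real.exp_pos _).ne', Real.log_exp]
      have h3 := log_near (h := 1) (by norm_num) (by linarith) (by linarith : 0 < y)
        (y := z.im) (by linarith)
      have h3' := abs_le.1 h3
      have h4 : (z.re - 1 / 2) * Real.log z.im - (z.re - 1 / 2) * ℓ ≤ 2 * 1 := by
        have e : (z.re - 1 / 2) * Real.log z.im - (z.re - 1 / 2) * ℓ =
          (z.re - 1 / 2) * (Real.log z.im - ℓ) := by ring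
        rw [e]
        have h5 : (z.re - 1 / 2) * (Real.log z.im - ℓ) ≤ (z.re - 1 / 2) * 1 := by
          gcongr
          · linarith
          · linarith [h3'.2]
        linarith
      have h5 : min (η0 / 2) ε * Real.log z.im ≤ η0 / 2 * (ℓ + 1) := by
        have : 0 ≤ Real.log z.im := Real.log_nonneg (by linarith)
        gcongr
        · exact min_le_left _ _
        · linarith [h3'.2]
      have h6 := (abs_le.1 g2).2
      linarith)
    (by
      obtain ⟨g1, g2, g3⟩ := hR c (by rw [hcre]; norm_num) (by rw [hcre]; norm_num)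
        (by rw [hcim]; linarith)
      rw [hfn, ← Real.le_log_iff_exp_le (by
        have := norm_pos_iff.2 g1
        positivity), Real.log_mul (norm_ne_zero_iff.2 g1) (Real.exp_pos _).ne', Real.log_exp]
      rw [hcim] at g2
      have h6 := (abs_le.1 g2).1
      have h5 : min (η0 / 2) ε * ℓ ≤ η0 / 2 * ℓ := by
        gcongr
        exact min_le_left _ _
      have h7 : 0 < η0 * ℓ := by positivity
      have e : Real.log y = ℓ := rfl
      rw [e] at h6
      linarith)
    (by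
      refine ZL.comp (f := F) (σ := id) Function.injective_id ?_ ?_ (V := {w | 1 / 2 + η ≤ w.re ∧
        |w.im - y| ≤ 2}) ?_ (hZ.mono Subset.rfl ?_)
      · intro z hz h0
        exact (mul_eq_zero.1 h0).resolve_right (Complex.exp_ne_zero _)
      · intro z hz h0
        exact order_mul_exp (hFan z (by linarith [(hreg z hz).2.2.2.1])) (hean z)
          (Complex.exp_ne_zero _)
      · intro z hz h0
        obtain ⟨k1, k2, k3, k4, k5⟩ := hreg z hz
        refine ⟨?_, ?_⟩
        · have : η ≤ ε / 2 := min_le_right _ _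
          simp only [id]
          linarith
        · simp only [id]
          linarith
      · gcongr
        exact min_le_left _ _) w (by
      rw [mem_closedBall, dist_eq_norm]
      have e : w - c = ((w.re - 2 : ℝ) : ℂ) := by
        apply Complex.ext
        · simp [hc]
        · simp [hc, hwy]
      rw [e, Complex.norm_real, Real.norm_eq_abs, abs_le]
      constructor <;> linarith)
  rw [hfn] at key
  have h1 : Real.exp ((w.re - 1 / 2 + ε) * ℓ) = Real.exp (ε * ℓ) * Real.exp (ℓ * (w.re - 1 / 2)) := by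
    rw [← Real.exp_add]; congr 1; ring
  rw [h1]
  have h2 : Real.exp (-(ℓ * (w.re - 1 / 2))) * Real.exp (ℓ * (w.re - 1 / 2)) = 1 := by
    rw [← Real.exp_add, neg_add_cancel, Real.exp_zero]
  calc ‖F w‖ = ‖F w‖ * Real.exp (-(ℓ * (w.re - 1 / 2))) * Real.exp (ℓ * (w.re - 1 / 2)) := by
        rw [mul_assoc, h2, mul_one]
    _ ≤ Real.exp (ε * ℓ) * Real.exp (ℓ * (w.re - 1 / 2)) := by gcongr

end Pool.Agent.N799.LH
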