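import Pool.Agent.N799.LH.Transfer

/-!
# The Lindelöf hypothesis and the zeros of differential polynomials of `ζ`
-/

set_option autoImplicit false

open Complex Metric Set Filter Topology Polynomial

namespace Pool.Agent.N799.LH

open Pool.Agent.N799.SP

theorem rpow_exp {t : ℝ} (ht : 0 < t) (ε : ℝ) : t ^ ε = Real.exp (ε * Real.log t) := by
  rw [Real.rpow_def_of_pos ht, mul_comm]

/-- left zeros: few of them imply small values -/
theorem left_few (p : ℂ[X]) (hp : p ≠ 0) (ε : ℝ) (hε : 0 < ε) : ∃ η A t₀ : ℝ, 0 < η ∧ 0 ≤ A ∧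
    4 ≤ t₀ ∧ ∀ t : ℝ, t₀ ≤ t → ∀ η' A' : ℝ, η' ≤ η → A ≤ A' → A' + 1 ≤ t →
    ZL (DD p) {s | s.re ≤ 1 / 2 - η' ∧ |s.im - t| ≤ A'} (η' * Real.log t) →
      ‖riemannZeta ⟨1 / 2, t⟩‖ ≤ Real.exp (ε * Real.log t) := by
  obtain ⟨η, A, t₀, hη, ht₀, h⟩ := PP_all (rlist p.roots.toList) ε hε 1 one_pos
  refine ⟨η, max A 0, t₀, hη, le_max_right _ _, ht₀, fun t ht η' A' hη' hA' hAt hZ => ?_⟩
  have hA0 : 0 ≤ A' := (le_max_right _ _).trans hA'
  have hA1 : A ≤ A' := (le_max_left _ _).trans hA'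
  have hlog : 0 ≤ Real.log t := Real.log_nonneg (by linarith)
  rw [ZL_DD p hp (by
    rintro s ⟨_, h2⟩ h1
    rw [h1, one_im, zero_sub, abs_neg, abs_of_nonneg (by linarith)] at h2
    linarith)] at hZ
  refine h t ht (ZL_rl _ (V := {s | s.re ≤ 1 / 2 - η' ∧ |s.im - t| ≤ A'}) ?_ ?_
    (hZ.mono Subset.rfl (by gcongr))) ⟨1 / 2, t⟩ le_rfl (by simp)
  · rintro w ⟨_, h2⟩
    have := abs_le.1 h2
    have : 0 < w.im := by linarith
    exact this.ne'
  · rintro w ⟨h1, h2⟩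
    refine ⟨?_, ?_⟩
    · rw [rl_re]; linarith
    · rw [rl_im]; linarith

/-- right zeros: few of them imply small values -/
theorem right_few (p : ℂ[X]) (hp : p ≠ 0) (ε : ℝ) (hε : 0 < ε) : ∃ η A t₀ : ℝ, 0 < η ∧ 0 ≤ A ∧
    4 ≤ t₀ ∧ ∀ t : ℝ, t₀ ≤ t → ∀ η' A' : ℝ, η' ≤ η → A ≤ A' → A' + 1 ≤ t →
    ZL (DD p) {s | 1 / 2 + η' ≤ s.re ∧ |s.im - t| ≤ A'} (η' * Real.log t) →
      ‖riemannZeta ⟨1 / 2, t⟩‖ ≤ Real.exp (ε * Real.log t) := by
  obtain ⟨η, A, t₀, hη, ht₀, h⟩ := QQ p.roots.toList ε hε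
  refine ⟨η, max A 0, t₀, hη, le_max_right _ _, ht₀, fun t ht η' A' hη' hA' hAt hZ => ?_⟩
  have hA0 : 0 ≤ A' := (le_max_right _ _).trans hA'
  have hA1 : A ≤ A' := (le_max_left _ _).trans hA'
  have hlog : 0 ≤ Real.log t := Real.log_nonneg (by linarith)
  rw [ZL_DD p hp (by
    rintro s ⟨_, h2⟩ h1
    rw [h1, one_im, zero_sub, abs_neg, abs_of_nonneg (by linarith)] at h2
    linarith)] at hZ
  refine h t ht (hZ.mono ?_ (by gcongr))
  rintro w ⟨h1, h2⟩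
  exact ⟨by linarith, by linarith⟩

/-- small values imply few zeros, on both sides -/
theorem conv_both (p : ℂ[X]) (hp : p ≠ 0) (ε : ℝ) (hε : 0 < ε) : ∃ η A t₀ : ℝ, 0 < η ∧ 4 ≤ t₀ ∧
    ∀ t : ℝ, t₀ ≤ t → SL η A t →
      ZL (DD p) {s | ε ≤ |s.re - 1 / 2| ∧ |s.im - t| ≤ 1} (ε * Real.log t) := by
  set δ : ℝ := min (ε / 2) (1 / 2) with hδ
  have hδ0 : 0 < δ := by positivity
  have hδ1 : δ ≤ 1 / 2 := min_le_right _ _
  have hδ2 : 2 * δ ≤ ε := by
    have : δ ≤ ε / 2 := min_le_left _ _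
    linarith
  obtain ⟨η1, A1, t1, hη1, ht1, h1⟩ := conv_F (rlist p.roots.toList) δ hδ0 hδ1
  obtain ⟨η2, A2, t2, hη2, ht2, h2⟩ := conv_G p.roots.toList δ hδ0 hδ1
  refine ⟨min η1 η2, max A1 A2, max t1 t2, by positivity, le_max_of_le_left ht1, ?_⟩
  intro t ht hS
  have k1 : t1 ≤ t := (le_max_left _ _).trans ht
  have k2 : t2 ≤ t := (le_max_right _ _).trans ht
  have hlog : 0 ≤ Real.log t := Real.log_nonneg (by linarith)
  have hs1 : SL η1 A1 t := fun y hy => (hS y (hy.trans (le_max_left _ _))).trans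
    (Real.exp_le_exp.2 (by gcongr; exact min_le_left _ _))
  have hs2 : SL η2 A2 t := fun y hy => (hS y (hy.trans (le_max_right _ _))).trans
    (Real.exp_le_exp.2 (by gcongr; exact min_le_right _ _))
  rw [ZL_DD p hp (by
    rintro s ⟨_, h2⟩ h1
    rw [h1, one_im, zero_sub, abs_neg, abs_of_nonneg (by linarith)] at h2
    linarith)]
  have g1 : ZL (TT p.roots.toList riemannZeta) {s | s.re ≤ 1 / 2 - δ ∧ |s.im - t| ≤ 1}
      (δ * Real.log t) := by
    refine ZL_rl' _ ?_ ?_ (h1 t k1 hs1)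
    · rintro w ⟨_, h2⟩
      have := abs_le.1 h2
      have : 0 < w.im := by linarith
      exact this.ne'
    · rintro w ⟨h1, h2⟩
      exact ⟨by rw [rl_re]; linarith, by rw [rl_im]; exact h2⟩
  have g2 := h2 t k2 hs2
  refine (g1.union g2).mono ?_ ?_
  · rintro w ⟨h1, h2⟩
    rcases le_total 0 (w.re - 1 / 2) with h3 | h3
    · rw [abs_of_nonneg h3] at h1
      right
      exact ⟨by linarith, h2⟩
    · rw [abs_of_nonpos h3] at h1
      left
      exact ⟨by linarith, h2⟩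
  · have : (2 * δ) * Real.log t ≤ ε * Real.log t := by gcongr
    linarith

/-- The Lindelöf hypothesis -/
def LHyp : Prop := ∀ ε : ℝ, 0 < ε → ∃ C : ℝ, ∀ t : ℝ,
  ‖riemannZeta (1 / 2 + t * I)‖ ≤ C * (1 + |t|) ^ ε

theorem pt (t : ℝ) : (1 / 2 + t * I : ℂ) = ⟨1 / 2, t⟩ := by
  apply Complex.ext <;> simp

/-- `LHyp` from bounds for large `t` -/
theorem LHyp_of {h : ∀ ε : ℝ, 0 < ε → ∃ t₀ : ℝ, ∀ t : ℝ, t₀ ≤ t →
    ‖riemannZeta ⟨1 / 2, t⟩‖ ≤ Real.exp (ε * Real.log t)} : LHyp := by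
  intro ε hε
  obtain ⟨t₀, h1⟩ := h ε hε
  set T : ℝ := max t₀ 1 with hT
  have hcont : Continuous (fun t : ℝ => riemannZeta (⟨1 / 2, t⟩ : ℂ)) := by
    rw [continuous_iff_continuousAt]
    intro t
    have h2 : (⟨1 / 2, t⟩ : ℂ) ≠ 1 := by
      intro h
      have := congrArg Complex.re h
      simp at this
    have h3 : ContinuousAt riemannZeta (⟨1 / 2, t⟩ : ℂ) :=
      (differentiableAt_riemannZeta h2).continuousAt
    have h4 : ContinuousAt (fun t : ℝ => (⟨1 / 2, t⟩ : ℂ)) t := by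
      have : (fun t : ℝ => (⟨1 / 2, t⟩ : ℂ)) = fun t : ℝ => (1 / 2 + t * I : ℂ) := by
        funext t; rw [pt]
      rw [this]
      fun_prop
    exact ContinuousAt.comp (g := riemannZeta) (f := fun t : ℝ => (⟨1 / 2, t⟩ : ℂ)) h3 h4
  obtain ⟨C, hC⟩ := (isCompact_Icc (a := -T) (b := T)).exists_bound_of_continuousOn hcont.continuousOn
  refine ⟨max C 1, fun t => ?_⟩
  rw [pt]
  have hbase : 1 ≤ (1 + |t|) ^ ε := Real.one_le_rpow (by linarith [abs_nonneg t]) hε.le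
  have hM : 1 ≤ max C 1 := le_max_right _ _
  rcases le_or_gt |t| T with h2 | h2
  · have h3 := hC t (abs_le.1 h2)
    calc ‖riemannZeta ⟨1 / 2, t⟩‖ ≤ max C 1 * 1 := by
          rw [mul_one]; exact h3.trans (le_max_left _ _)
      _ ≤ _ := by gcongr
  · -- use symmetry
    have hsym : ‖riemannZeta ⟨1 / 2, t⟩‖ = ‖riemannZeta ⟨1 / 2, |t|⟩‖ := by
      rcases abs_choice t with h3 | h3
      · rw [h3]
      · rw [h3, ← norm_zeta_conj]
        congr 2
    have h3 : t₀ ≤ |t| := (le_max_left _ _).trans h2.le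
    have h4 : 1 ≤ |t| := (le_max_right _ _).trans h2.le
    have h5 := h1 |t| h3
    rw [hsym]
    rw [← rpow_exp (by linarith)] at h5
    calc ‖riemannZeta ⟨1 / 2, |t|⟩‖ ≤ |t| ^ ε := h5
      _ ≤ (1 + |t|) ^ ε := by
        apply Real.rpow_le_rpow (abs_nonneg t) (by linarith) hε.le
      _ = 1 * (1 + |t|) ^ ε := (one_mul _).symm
      _ ≤ _ := by gcongr

theorem SL_of_LHyp (h : LHyp) (η A : ℝ) (hη : 0 < η) : ∃ t₀ : ℝ, 4 ≤ t₀ ∧ ∀ t : ℝ, t₀ ≤ t →
    SL η A t := by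
  obtain ⟨C, hC⟩ := h (η / 2) (by positivity)
  obtain ⟨t1, ht1, hlg⟩ := log_large (max 1 (2 * (Real.log (max C 1) + η) / η))
  refine ⟨max t1 (max 4 (2 * |A| + 4)), le_trans (le_max_left _ _) (le_max_right _ _), ?_⟩
  intro t ht y hy
  have k1 : t1 ≤ t := (le_max_left _ _).trans ht
  have k2 : 4 ≤ t := ((le_max_left _ _).trans (le_max_right _ _)).trans ht
  have k3 : 2 * |A| + 4 ≤ t := ((le_max_right _ _).trans (le_max_right _ _)).trans ht
  have hA := abs_nonneg A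
  have hA2 := le_abs_self A
  have hℓ := hlg t k1
  set ℓ := Real.log t with hℓd
  have c2 : 2 * (Real.log (max C 1) + η) ≤ η * ℓ := by
    have := (le_max_right _ _).trans hℓ
    rw [div_le_iff₀ hη] at this
    linarith
  have h1 := hC y
  rw [pt] at h1
  refine h1.trans ?_
  have hy' := abs_le.1 hy
  have hy0 : 0 ≤ y := by linarith
  rw [abs_of_nonneg hy0]
  have hM : 0 < max C 1 := lt_of_lt_of_le one_pos (le_max_right _ _)
  calc C * (1 + y) ^ (η / 2) ≤ max C 1 * (1 + y) ^ (η / 2) := by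
        have : 0 ≤ (1 + y) ^ (η / 2) := by positivity
        gcongr
        exact le_max_left _ _
    _ ≤ max C 1 * (2 * t) ^ (η / 2) := by
        gcongr
        linarith
    _ = Real.exp (Real.log (max C 1)) * Real.exp (η / 2 * Real.log (2 * t)) := by
        rw [Real.exp_log hM, rpow_exp (by linarith)]
    _ = Real.exp (Real.log (max C 1) + η / 2 * Real.log (2 * t)) := by rw [← Real.exp_add]
    _ ≤ Real.exp (η * ℓ) := by
        apply Real.exp_le_exp.2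
        rw [Real.log_mul (by norm_num) (by linarith)]
        have h2 : Real.log 2 ≤ 1 := by
          have := Real.log_two_lt_d9
          linarith
        have h3 : η / 2 * (Real.log 2 + ℓ) ≤ η / 2 * (1 + ℓ) := by gcongr
        linarith

/-- few zeros in unit windows give few zeros in long windows -/
theorem long_window {f : ℂ → ℂ} {P : ℝ → Prop} (η A : ℝ) (hη : 0 < η) (hA : 0 ≤ A)
    (h : ∀ ε : ℝ, 0 < ε → ∃ T₀ : ℝ, ∀ T : ℝ, T₀ ≤ T →
      ZL f {s | P s.re ∧ T ≤ s.im ∧ s.im ≤ T + 1} (ε * Real.log T)) :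
    ∃ t₀ : ℝ, 4 ≤ t₀ ∧ ∀ t : ℝ, t₀ ≤ t → ZL f {s | P s.re ∧ |s.im - t| ≤ A} (η * Real.log t) := by
  obtain ⟨N, hN⟩ := exists_nat_gt (2 * A + 1)
  have hN0 : (0 : ℝ) < N := by linarith
  obtain ⟨T₀, hT⟩ := h (η / (2 * N)) (by positivity)
  obtain ⟨t1, ht1, hlg⟩ := log_large 1
  refine ⟨max (max t1 (T₀ + A)) (2 * (A + N) + 4), le_trans (by linarith) (le_max_right _ _), ?_⟩
  intro t ht
  have k1 : t1 ≤ t := ((le_max_left _ _).trans (le_max_left _ _)).trans ht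
  have k2 : T₀ + A ≤ t := ((le_max_right _ _).trans (le_max_left _ _)).trans ht
  have k3 : 2 * (A + N) + 4 ≤ t := (le_max_right _ _).trans ht
  have hℓ := hlg t k1
  have h1 : ∀ k < N, ZL f {s | P s.re ∧ t - A + k ≤ s.im ∧ s.im ≤ t - A + k + 1}
      (η / (2 * N) * (2 * Real.log t)) := by
    intro k hk
    have hk' : (k : ℝ) ≤ N := by exact_mod_cast hk.le
    have hk0 : (0 : ℝ) ≤ k := Nat.cast_nonneg k
    refine (hT (t - A + k) (by linarith)).mono Subset.rfl ?_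
    gcongr
    have h2 := abs_le.1 (log_near (h := A + N) (y := t - A + k) (τ := t) (by positivity) (by linarith)
      (by linarith) (by rw [abs_le]; constructor <;> linarith))
    linarith
  refine (ZL.iUnion N h1).mono ?_ (le_of_eq (by field_simp))
  rintro z ⟨hz1, hz2⟩
  have hz3 := abs_le.1 hz2
  set k : ℕ := ⌊z.im - (t - A)⌋₊ with hk
  have hk1 := Nat.floor_le (show 0 ≤ z.im - (t - A) by linarith)
  have hk2 := Nat.lt_floor_add_one (z.im - (t - A))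
  rw [← hk] at hk1 hk2
  have hkN : k < N := by
    have : (k : ℝ) < N := by linarith
    exact_mod_cast this
  simp only [mem_iUnion]
  exact ⟨k, hkN, hz1, by linarith, by linarith⟩

/-- the criterion with left zeros -/
theorem left_iff (p : ℂ[X]) (hp : p ≠ 0) : LHyp ↔ ∀ δ : ℝ, 0 < δ → ∀ ε : ℝ, 0 < ε → ∃ T₀ : ℝ,
    ∀ T : ℝ, T₀ ≤ T → ZL (DD p) {s | s.re ≤ 1 / 2 - δ ∧ T ≤ s.im ∧ s.im ≤ T + 1} (ε * Real.log T) := by
  constructor
  · intro h δ hδ ε hε
    obtain ⟨η, A, t₀, hη, ht₀, h1⟩ := conv_both p hp (min δ ε) (by positivity)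
    obtain ⟨t1, ht1, h2⟩ := SL_of_LHyp h η A hη
    refine ⟨max t₀ t1, fun T hT => ?_⟩
    have k1 : t₀ ≤ T := (le_max_left _ _).trans hT
    have k2 : t1 ≤ T := (le_max_right _ _).trans hT
    have hlog : 0 ≤ Real.log T := Real.log_nonneg (by linarith)
    refine (h1 T k1 (h2 T k2)).mono ?_ (by gcongr; exact min_le_right _ _)
    rintro s ⟨g1, g2, g3⟩
    have hm : min δ ε ≤ δ := min_le_left _ _
    refine ⟨?_, ?_⟩
    · rw [abs_of_nonpos (by linarith)]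
      linarith
    · rw [abs_le]; constructor <;> linarith
  · intro h
    apply LHyp_of
    intro ε hε
    obtain ⟨η, A, t₀, hη, hA, ht₀, h1⟩ := left_few p hp ε hε
    obtain ⟨t1, ht1, h2⟩ := long_window (f := DD p) (P := fun x => x ≤ 1 / 2 - η) η A hη hA
      (fun ε' hε' => h η hη ε' hε')
    refine ⟨max (max t₀ t1) (A + 1), fun t ht => ?_⟩
    have k1 : t₀ ≤ t := ((le_max_left _ _).trans (le_max_left _ _)).trans ht
    have k2 : t1 ≤ t := ((le_max_right _ _).trans (le_max_left _ _)).trans ht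
    exact h1 t k1 η A le_rfl le_rfl ((le_max_right _ _).trans ht) (h2 t k2)

/-- the criterion with right zeros -/
theorem right_iff (p : ℂ[X]) (hp : p ≠ 0) : LHyp ↔ ∀ δ : ℝ, 0 < δ → ∀ ε : ℝ, 0 < ε → ∃ T₀ : ℝ,
    ∀ T : ℝ, T₀ ≤ T → ZL (DD p) {s | 1 / 2 + δ ≤ s.re ∧ T ≤ s.im ∧ s.im ≤ T + 1} (ε * Real.log T) := by
  constructor
  · intro h δ hδ ε hε
    obtain ⟨η, A, t₀, hη, ht₀, h1⟩ := conv_both p hp (min δ ε) (by positivity)
    obtain ⟨t1, ht1, h2⟩ := SL_of_LHyp h η A hη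
    refine ⟨max t₀ t1, fun T hT => ?_⟩
    have k1 : t₀ ≤ T := (le_max_left _ _).trans hT
    have k2 : t1 ≤ T := (le_max_right _ _).trans hT
    have hlog : 0 ≤ Real.log T := Real.log_nonneg (by linarith)
    refine (h1 T k1 (h2 T k2)).mono ?_ (by gcongr; exact min_le_right _ _)
    rintro s ⟨g1, g2, g3⟩
    have hm : min δ ε ≤ δ := min_le_left _ _
    refine ⟨?_, ?_⟩
    · rw [abs_of_nonneg (by linarith)]
      linarith
    · rw [abs_le]; constructor <;> linarith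
  · intro h
    apply LHyp_of
    intro ε hε
    obtain ⟨η, A, t₀, hη, hA, ht₀, h1⟩ := right_few p hp ε hε
    obtain ⟨t1, ht1, h2⟩ := long_window (f := DD p) (P := fun x => 1 / 2 + η ≤ x) η A hη hA
      (fun ε' hε' => h η hη ε' hε')
    refine ⟨max (max t₀ t1) (A + 1), fun t ht => ?_⟩
    have k1 : t₀ ≤ t := ((le_max_left _ _).trans (le_max_left _ _)).trans ht
    have k2 : t1 ≤ t := ((le_max_right _ _).trans (le_max_left _ _)).trans ht
    exact h1 t k1 η A le_rfl le_rfl ((le_max_right _ _).trans ht) (h2 t k2)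

/-- the local theorem -/
theorem local_thm (p : ℂ[X]) (hp : p ≠ 0) (ε : ℝ) (hε : 0 < ε) : ∃ η A t₀ : ℝ, 0 < η ∧
    ∀ t : ℝ, t₀ ≤ t →
    (ZL (DD p) {s | s.re ≤ 1 / 2 - η ∧ |s.im - t| ≤ A} (η * Real.log t) →
      ‖riemannZeta (1 / 2 + t * I)‖ ≤ t ^ ε) ∧
    (ZL (DD p) {s | 1 / 2 + η ≤ s.re ∧ |s.im - t| ≤ A} (η * Real.log t) →
      ‖riemannZeta (1 / 2 + t * I)‖ ≤ t ^ ε) ∧
    ((∀ y : ℝ, |y - t| ≤ A → ‖riemannZeta (1 / 2 + y * I)‖ ≤ t ^ η) →
      ZL (DD p) {s | ε ≤ |s.re - 1 / 2| ∧ |s.im - t| ≤ 1} (ε * Real.log t)) := by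
  obtain ⟨η1, A1, t1, hη1, hA1, ht1, h1⟩ := left_few p hp ε hε
  obtain ⟨η2, A2, t2, hη2, hA2, ht2, h2⟩ := right_few p hp ε hε
  obtain ⟨η3, A3, t3, hη3, ht3, h3⟩ := conv_both p hp ε hε
  set η : ℝ := min (min η1 η2) η3 with hη
  have e1 : η ≤ η1 := (min_le_left _ _).trans (min_le_left _ _)
  have e2 : η ≤ η2 := (min_le_left _ _).trans (min_le_right _ _)
  have e3 : η ≤ η3 := min_le_right _ _
  set A : ℝ := max (max A1 A2) A3 with hA
  have f1 : A1 ≤ A := (le_max_left _ _).trans (le_max_left _ _)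
  have f2 : A2 ≤ A := (le_max_right _ _).trans (le_max_left _ _)
  have f3 : A3 ≤ A := le_max_right _ _
  refine ⟨η, A, max (max t1 t2) (max t3 (A + 1)), by positivity, fun t ht => ?_⟩
  have k1 : t1 ≤ t := ((le_max_left _ _).trans (le_max_left _ _)).trans ht
  have k2 : t2 ≤ t := ((le_max_right _ _).trans (le_max_left _ _)).trans ht
  have k3 : t3 ≤ t := ((le_max_left _ _).trans (le_max_right _ _)).trans ht
  have k4 : A + 1 ≤ t := ((le_max_right _ _).trans (le_max_right _ _)).trans ht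
  have ht0 : 0 < t := by linarith
  have hlog : 0 ≤ Real.log t := Real.log_nonneg (by linarith)
  rw [pt, rpow_exp ht0, rpow_exp ht0]
  refine ⟨fun h => h1 t k1 η A e1 f1 k4 h, fun h => h2 t k2 η A e2 f2 k4 h, fun h => h3 t k3 ?_⟩
  intro y hy
  have := h y (hy.trans f3)
  rw [pt] at this
  refine this.trans (Real.exp_le_exp.2 ?_)
  gcongr

end Pool.Agent.N799.LH
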