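import Pool.Agent.N799.LH.Conv

/-!
# The right side: `TT l ζ` to the right of the critical line
-/

set_option autoImplicit false

open Complex Metric Set Filter Topology

namespace Pool.Agent.N799.LH

open Pool.Agent.N799.SP

/-- the symbol of `TT l` at `n ^ (-s)` -/
noncomputable def sy (l : List ℂ) (n : ℕ) : ℂ := (l.map (fun a => (-(Real.log n : ℂ)) - a)).prod

theorem T1_const_mul (a c : ℂ) (f : ℂ → ℂ) : T1 a (fun z => c * f z) = fun z => c * T1 a f z := by
  funext z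
  simp only [T1]
  rw [deriv_const_mul_field]
  ring

theorem TT_const_mul (l : List ℂ) : ∀ (c : ℂ) (f : ℂ → ℂ), TT l (fun z => c * f z) =
    fun z => c * TT l f z := by
  induction l with
  | nil => intro c f; rfl
  | cons a l ih =>
    intro c f
    simp only [TT_cons]
    rw [T1_const_mul, ih]

theorem TT_exp (l : List ℂ) (b : ℂ) : TT l (fun z => Complex.exp (b * z)) =
    fun z => (l.map (fun a => b - a)).prod * Complex.exp (b * z) := by
  induction l with
  | nil => simp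
  | cons a l ih =>
    simp only [TT_cons, List.map_cons, List.prod_cons]
    have h : T1 a (fun z => Complex.exp (b * z)) = fun z => (b - a) * Complex.exp (b * z) := by
      funext z
      simp only [T1]
      have : HasDerivAt (fun z : ℂ => Complex.exp (b * z)) (Complex.exp (b * z) * (b * 1)) z :=
        ((hasDerivAt_id z).const_mul b).cexp
      rw [this.deriv]
      ring
    rw [h, TT_const_mul, ih]
    funext z
    ring

theorem TT_add {U : Set ℂ} (hU : IsOpen U) (l : List ℂ) : ∀ {f g : ℂ → ℂ},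
    DifferentiableOn ℂ f U → DifferentiableOn ℂ g U →
    ∀ z ∈ U, TT l (fun z => f z + g z) z = TT l f z + TT l g z := by
  induction l with
  | nil => intro f g _ _ z _; rfl
  | cons a l ih =>
    intro f g hf hg z hz
    simp only [TT_cons]
    rw [← ih (T1_diff hU a hf) (T1_diff hU a hg) z hz]
    refine TT_congr hU l ?_ z hz
    intro x hx
    simp only [T1]
    have h1 := hf.differentiableAt (hU.mem_nhds hx)
    have h2 := hg.differentiableAt (hU.mem_nhds hx)
    rw [deriv_fun_add h1 h2]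
    ring

theorem exists_sy (l : List ℂ) : ∃ n : ℕ, 1 ≤ n ∧ sy l n ≠ 0 := by
  by_contra hcon
  push Not at hcon
  -- the map `n ↦ -log n` is injective on positive integers and takes finitely many values
  have h1 : ∀ n : ℕ, 1 ≤ n → (-(Real.log n : ℂ)) ∈ l := by
    intro n hn
    have h2 := hcon n hn
    unfold sy at h2
    rw [List.prod_eq_zero_iff] at h2
    obtain ⟨a, ha, h3⟩ := List.mem_map.1 h2
    rw [sub_eq_zero] at h3
    rw [h3]; exact ha
  have h2 : Set.InjOn (fun n : ℕ => (-(Real.log n : ℂ))) {n : ℕ | 1 ≤ n} := by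
    intro a ha b hb hab
    simp only [neg_inj] at hab
    have h3 : Real.log a = Real.log b := by exact_mod_cast hab
    have h4 : (a : ℝ) = b := Real.log_injOn_pos (by
      have : (0 : ℝ) < a := by exact_mod_cast ha
      exact this) (by
      have : (0 : ℝ) < b := by exact_mod_cast hb
      exact this) h3
    exact_mod_cast h4
  have h3 : Set.Infinite {n : ℕ | 1 ≤ n} := Set.infinite_of_not_bddAbove (by
    rintro ⟨B, hB⟩
    have : B + 1 ∈ {n : ℕ | 1 ≤ n} := by
      simp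
    have := hB this
    omega)
  have h4 := h3.image h2
  refine h4 ((List.finite_toSet l).subset ?_)
  rintro _ ⟨n, hn, rfl⟩
  exact h1 n hn

/-- the zeta function minus a partial sum -/
theorem zeta_tail (N : ℕ) : ∃ C : ℝ, 0 < C ∧ ∀ s : ℂ, 2 ≤ s.re →
    ‖riemannZeta s - ∑ n ∈ Finset.range N, Complex.exp (-(Real.log ((n + 1 : ℕ) : ℝ) : ℂ) * s)‖ ≤
      C * ((N : ℝ) + 1) ^ (-s.re) := by
  have hsum : Summable (fun n : ℕ => 1 / ((n : ℝ) + 1) ^ (2 : ℝ)) := by
    have h1 : Summable (fun n : ℕ => 1 / (n : ℝ) ^ (2 : ℝ)) :=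
      Real.summable_one_div_nat_rpow.2 (by norm_num)
    have h2 := (summable_nat_add_iff 1).2 h1
    refine h2.congr fun n => ?_
    push_cast
    rfl
  set B : ℝ := ∑' n : ℕ, 1 / ((n : ℝ) + 1) ^ (2 : ℝ) with hB
  have hB0 : 0 ≤ B := tsum_nonneg fun n => by positivity
  refine ⟨(B + 1) * ((N : ℝ) + 1) ^ (2 : ℝ), by positivity, fun s hs => ?_⟩
  have hterm : ∀ n : ℕ, Complex.exp (-(Real.log ((n + 1 : ℕ) : ℝ) : ℂ) * s) =
      1 / ((n : ℂ) + 1) ^ s := by
    intro n
    have hne : ((n : ℂ) + 1) ≠ 0 := by exact_mod_cast (Nat.succ_ne_zero n)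
    rw [Complex.cpow_def_of_ne_zero hne, one_div, ← Complex.exp_neg]
    congr 1
    have : Complex.log ((n : ℂ) + 1) = ((Real.log ((n + 1 : ℕ) : ℝ) : ℝ) : ℂ) := by
      rw [Complex.ofReal_log (by positivity)]
      push_cast
      rfl
    rw [this]
    ring
  have hz := zeta_eq_tsum_one_div_nat_add_one_cpow (s := s) (by linarith)
  have hnorm : ∀ n : ℕ, ‖(1 : ℂ) / ((n : ℂ) + 1) ^ s‖ = 1 / ((n : ℝ) + 1) ^ s.re := by
    intro n
    rw [norm_div, norm_one]
    congr 1
    have := Complex.norm_natCast_cpow_of_pos (n := n + 1) (by omega) s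
    push_cast at this
    exact this
  have hsumm : Summable (fun n : ℕ => (1 : ℂ) / ((n : ℂ) + 1) ^ s) := by
    refine Summable.of_norm (hsum.of_nonneg_of_le (fun n => norm_nonneg _) fun n => ?_)
    rw [hnorm]
    have : (1 : ℝ) ≤ (n : ℝ) + 1 := by linarith [Nat.cast_nonneg (α := ℝ) n]
    gcongr
  have h1 := hsumm.sum_add_tsum_nat_add N
  have h2 : riemannZeta s - ∑ n ∈ Finset.range N, Complex.exp (-(Real.log ((n + 1 : ℕ) : ℝ) : ℂ) * s) =
      ∑' n : ℕ, (1 : ℂ) / (((n + N : ℕ) : ℂ) + 1) ^ s := by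
    rw [hz, ← h1, Finset.sum_congr rfl fun n _ => hterm n, add_sub_cancel_left]
  rw [h2]
  have h3 : ∀ n : ℕ, ‖(1 : ℂ) / (((n + N : ℕ) : ℂ) + 1) ^ s‖ ≤
      ((N : ℝ) + 1) ^ (2 - s.re) * (1 / ((n : ℝ) + 1) ^ (2 : ℝ)) := by
    intro n
    rw [hnorm (n + N)]
    have hn0 : (0 : ℝ) ≤ n := Nat.cast_nonneg n
    have hN0 : (0 : ℝ) ≤ N := Nat.cast_nonneg N
    have e1 : (((n + N : ℕ) : ℝ) + 1) ^ s.re = (((n + N : ℕ) : ℝ) + 1) ^ (2 : ℝ) *
        (((n + N : ℕ) : ℝ) + 1) ^ (s.re - 2) := by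
      rw [← Real.rpow_add (by positivity)]
      congr 1
      ring
    rw [e1]
    have e2 : ((n : ℝ) + 1) ^ (2 : ℝ) ≤ (((n + N : ℕ) : ℝ) + 1) ^ (2 : ℝ) := by
      gcongr
      push_cast
      linarith
    have e3 : ((N : ℝ) + 1) ^ (s.re - 2) ≤ (((n + N : ℕ) : ℝ) + 1) ^ (s.re - 2) := by
      apply Real.rpow_le_rpow (by positivity) _ (by linarith)
      push_cast
      linarith
    have e4 : ((N : ℝ) + 1) ^ (2 - s.re) = 1 / ((N : ℝ) + 1) ^ (s.re - 2) := by
      rw [one_div, ← Real.rpow_neg (by positivity)]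
      congr 1
      ring
    rw [e4]
    calc 1 / ((((n + N : ℕ) : ℝ) + 1) ^ (2 : ℝ) * (((n + N : ℕ) : ℝ) + 1) ^ (s.re - 2))
        = 1 / (((n + N : ℕ) : ℝ) + 1) ^ (s.re - 2) * (1 / (((n + N : ℕ) : ℝ) + 1) ^ (2 : ℝ)) := by
          rw [one_div_mul_one_div_rev]
      _ ≤ _ := by gcongr
  have h4 := tsum_of_norm_bounded ((hsum.hasSum).mul_left (((N : ℝ) + 1) ^ (2 - s.re))) h3
  refine h4.trans ?_
  rw [← hB]
  have e5 : ((N : ℝ) + 1) ^ (2 - s.re) = ((N : ℝ) + 1) ^ (2 : ℝ) * ((N : ℝ) + 1) ^ (-s.re) := by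
    rw [← Real.rpow_add (by positivity)]
    congr 1
  rw [e5]
  have : 0 ≤ ((N : ℝ) + 1) ^ (2 : ℝ) * ((N : ℝ) + 1) ^ (-s.re) := by positivity
  nlinarith

theorem zeta_diffOn_right : DifferentiableOn ℂ riemannZeta {s : ℂ | 1 < s.re} := by
  intro s hs
  refine (differentiableAt_riemannZeta ?_).differentiableWithinAt
  intro h
  have : (1 : ℝ) < s.re := hs
  rw [h] at this
  simp at this

theorem rhp_open (a : ℝ) : IsOpen {w : ℂ | a < w.re} := isOpen_lt continuous_const continuous_re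

theorem TT_psum (l : List ℂ) (N : ℕ) : TT l (fun s => ∑ n ∈ Finset.range N,
    Complex.exp (-(Real.log ((n + 1 : ℕ) : ℝ) : ℂ) * s)) = fun s => ∑ n ∈ Finset.range N,
    sy l (n + 1) * Complex.exp (-(Real.log ((n + 1 : ℕ) : ℝ) : ℂ) * s) := by
  induction N with
  | zero =>
    simp only [Finset.range_zero, Finset.sum_empty]
    have := TT_const_mul l 0 (fun _ => 0)
    simp only [zero_mul] at this
    exact this
  | succ n ih =>
    funext s
    have h1 := TT_add isOpen_univ l (f := fun s => ∑ k ∈ Finset.range n,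
      Complex.exp (-(Real.log ((k + 1 : ℕ) : ℝ) : ℂ) * s))
      (g := fun s => Complex.exp (-(Real.log ((n + 1 : ℕ) : ℝ) : ℂ) * s))
      (Differentiable.differentiableOn (by fun_prop)) (Differentiable.differentiableOn (by fun_prop))
      s (mem_univ s)
    rw [ih, TT_exp] at h1
    rw [Finset.sum_range_succ]
    have h2 : (fun s : ℂ => ∑ k ∈ Finset.range (n + 1),
        Complex.exp (-(Real.log ((k + 1 : ℕ) : ℝ) : ℂ) * s)) = fun s => (∑ k ∈ Finset.range n,
      Complex.exp (-(Real.log ((k + 1 : ℕ) : ℝ) : ℂ) * s)) +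
        Complex.exp (-(Real.log ((n + 1 : ℕ) : ℝ) : ℂ) * s) := by
      funext s
      rw [Finset.sum_range_succ]
    rw [h2, h1]
    rfl

theorem norm_exp_log (n : ℕ) (hn : 1 ≤ n) (s : ℂ) :
    ‖Complex.exp (-(Real.log (n : ℝ) : ℂ) * s)‖ = (n : ℝ) ^ (-s.re) := by
  have hn0 : (0 : ℝ) < n := by exact_mod_cast hn
  rw [Complex.norm_exp, Real.rpow_def_of_pos hn0]
  congr 1
  have : -(Real.log (n : ℝ) : ℂ) * s = ((-Real.log n : ℝ) : ℂ) * s := by push_cast; ring
  rw [this, re_ofReal_mul]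
  ring

/-- basic facts on `TT l ζ` to the right -/
theorem G_data (l : List ℂ) : ∃ σ0 c0 C : ℝ, 3 ≤ σ0 ∧ 0 < c0 ∧ 1 ≤ C ∧
    (∀ s : ℂ, 2 ≤ s.re → ‖TT l riemannZeta s‖ ≤ C) ∧
    (∀ s : ℂ, σ0 ≤ s.re → TT l riemannZeta s ≠ 0) ∧
    (∀ s : ℂ, σ0 ≤ s.re → s.re ≤ σ0 + 2 → c0 ≤ ‖TT l riemannZeta s‖) := by
  classical
  obtain ⟨C1, hC1, hT1⟩ := TT_bound l (1 / 2) (1 / 4) (by norm_num)
  obtain ⟨C2, hC2, hright⟩ := zeta_right_bounds
  -- first nonvanishing symbol
  set n0 : ℕ := Nat.find (exists_sy l) with hn0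
  obtain ⟨hn1, hsy⟩ := Nat.find_spec (exists_sy l)
  have hmin : ∀ m : ℕ, 1 ≤ m → m < n0 → sy l m = 0 := by
    intro m hm1 hm2
    have := Nat.find_min (exists_sy l) hm2
    push Not at this
    exact this hm1
  rw [← hn0] at hn1 hsy
  obtain ⟨C3, hC3, htail⟩ := zeta_tail n0
  obtain ⟨C4, hC4, hT2⟩ := TT_bound l 1 (1 / 2) (by norm_num)
  have hn0' : (0 : ℝ) < n0 := by exact_mod_cast hn1
  have hsy0 : 0 < ‖sy l n0‖ := norm_pos_iff.2 hsy
  set q : ℝ := n0 / ((n0 : ℝ) + 1) with hq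
  have hq0 : 0 < q := by positivity
  have hq1 : q < 1 := by rw [hq, div_lt_one (by positivity)]; linarith
  obtain ⟨k, hk⟩ := exists_pow_lt_of_lt_one
    (show 0 < ‖sy l n0‖ / 2 / (C4 * C3 * ((n0 : ℝ) + 1)) by positivity) hq1
  set σ0 : ℝ := max 3 k with hσ0
  have hσ3 : 3 ≤ σ0 := le_max_left _ _
  -- the main lower bound
  have hlow : ∀ s : ℂ, σ0 ≤ s.re → ‖sy l n0‖ / 2 * (n0 : ℝ) ^ (-s.re) ≤ ‖TT l riemannZeta s‖ := by
    intro s hs
    have hs3 : 3 ≤ s.re := hσ3.trans hs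
    set P : ℂ → ℂ := fun s => ∑ n ∈ Finset.range n0,
      Complex.exp (-(Real.log ((n + 1 : ℕ) : ℝ) : ℂ) * s) with hP
    have hPd : Differentiable ℂ P := by
      simp only [hP]
      fun_prop
    have hsub := TT_sub (rhp_open 1) l zeta_diffOn_right hPd.differentiableOn s
      (show (1 : ℝ) < s.re by linarith)
    have hPs : TT l P s = sy l n0 * Complex.exp (-(Real.log (n0 : ℝ) : ℂ) * s) := by
      simp only [hP]
      rw [TT_psum]
      obtain ⟨m, hm⟩ : ∃ m, n0 = m + 1 := ⟨n0 - 1, by omega⟩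
      rw [hm]
      simp only []
      rw [Finset.sum_range_succ, Finset.sum_eq_zero, zero_add]
      intro j hj
      rw [hmin (j + 1) (by omega) (by
        have := Finset.mem_range.1 hj
        omega), zero_mul]
    have ht := hT2 (fun z => riemannZeta z - P z) s (C3 * ((n0 : ℝ) + 1) ^ (1 - s.re)) (by positivity)
      (by
        intro z hz
        have := abs_lt.1 (ball_coords hz).1
        exact ((zeta_diffOn_right.differentiableAt ((rhp_open 1).mem_nhds
          (show (1 : ℝ) < z.re by linarith))).sub (hPd z)).differentiableWithinAt)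
      (by
        intro z hz
        have hz' := abs_lt.1 (ball_coords hz).1
        refine (htail z (by linarith)).trans ?_
        have : (1 : ℝ) ≤ (n0 : ℝ) + 1 := by linarith
        gcongr
        linarith) s (mem_ball_self (by norm_num))
    have hsplit : TT l riemannZeta s = sy l n0 * Complex.exp (-(Real.log (n0 : ℝ) : ℂ) * s) +
        TT l (fun z => riemannZeta z - P z) s := by
      rw [hsub, hPs]; ring
    have e1 : ‖sy l n0 * Complex.exp (-(Real.log (n0 : ℝ) : ℂ) * s)‖ =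
        ‖sy l n0‖ * (n0 : ℝ) ^ (-s.re) := by
      rw [norm_mul, norm_exp_log n0 hn1]
    have e2 : C4 * (C3 * ((n0 : ℝ) + 1) ^ (1 - s.re)) ≤ ‖sy l n0‖ / 2 * (n0 : ℝ) ^ (-s.re) := by
      have h1 : q ^ s.re ≤ q ^ (k : ℝ) :=
        Real.rpow_le_rpow_of_exponent_ge hq0 hq1.le ((le_max_right _ _).trans hs)
      rw [Real.rpow_natCast] at h1
      have h2 : q ^ s.re ≤ ‖sy l n0‖ / 2 / (C4 * C3 * ((n0 : ℝ) + 1)) := h1.trans hk.le
      rw [le_div_iff₀ (by positivity)] at h2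
      have h3 : ((n0 : ℝ) + 1) ^ (1 - s.re) = ((n0 : ℝ) + 1) * ((n0 : ℝ) + 1) ^ (-s.re) := by
        rw [sub_eq_add_neg, Real.rpow_add (by positivity), Real.rpow_one]
      have h4 : q ^ s.re = (n0 : ℝ) ^ s.re * ((n0 : ℝ) + 1) ^ (-s.re) := by
        rw [hq, Real.div_rpow hn0'.le (by positivity), Real.rpow_neg (by positivity), div_eq_mul_inv]
      have h5 : (n0 : ℝ) ^ s.re * (n0 : ℝ) ^ (-s.re) = 1 := by
        rw [← Real.rpow_add hn0', add_neg_cancel, Real.rpow_zero]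
      calc C4 * (C3 * ((n0 : ℝ) + 1) ^ (1 - s.re))
          = (C4 * C3 * ((n0 : ℝ) + 1)) * ((n0 : ℝ) + 1) ^ (-s.re) * 1 := by rw [h3]; ring
        _ = (q ^ s.re * (C4 * C3 * ((n0 : ℝ) + 1))) * (n0 : ℝ) ^ (-s.re) := by
            rw [h4, ← h5]; ring
        _ ≤ ‖sy l n0‖ / 2 * (n0 : ℝ) ^ (-s.re) := by gcongr
    have e3 := norm_sub_le_norm_add (sy l n0 * Complex.exp (-(Real.log (n0 : ℝ) : ℂ) * s))
      (TT l (fun z => riemannZeta z - P z) s)
    rw [e1, ← hsplit] at e3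
    linarith
  have hpos : ∀ s : ℂ, σ0 ≤ s.re → 0 < ‖TT l riemannZeta s‖ := fun s hs =>
    lt_of_lt_of_le (by positivity) (hlow s hs)
  refine ⟨σ0, ‖sy l n0‖ / 2 * (n0 : ℝ) ^ (-(σ0 + 2)), max 1 (C1 * C2), hσ3, by positivity,
    le_max_left _ _, ?_, fun s hs => norm_pos_iff.1 (hpos s hs), ?_⟩
  · intro s hs
    have h1 := hT1 riemannZeta s C2 (by linarith) (by
      refine zeta_diffOn_right.mono fun z hz => ?_
      have := abs_lt.1 (ball_coords hz).1
      exact (show (1 : ℝ) < z.re by linarith)) (by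
      intro z hz
      have := abs_lt.1 (ball_coords hz).1
      exact (hright z (by linarith)).2.1) s (mem_ball_self (by norm_num))
    exact h1.trans (le_max_right _ _)
  · intro s hs hs2
    refine le_trans ?_ (hlow s hs)
    have : (1 : ℝ) ≤ n0 := by exact_mod_cast hn1
    gcongr

end Pool.Agent.N799.LH
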