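import Pool.Agent.N799.LH.Right

/-!
# The right side, continued
-/

set_option autoImplicit false

open Complex Metric Set Filter Topology

namespace Pool.Agent.N799.LH

open Pool.Agent.N799.SP

theorem zeta_diffOn_up : DifferentiableOn ℂ riemannZeta {s : ℂ | 0 < s.im} := by
  intro s hs
  have : (0 : ℝ) < s.im := hs
  exact (differentiableAt_riemannZeta (ne_one_of_im this.ne')).differentiableWithinAt

theorem G_growth (l : List ℂ) : ∃ C : ℝ, 1 ≤ C ∧ ∀ w : ℂ, 1 / 2 ≤ w.re → 2 ≤ w.im →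
    ‖TT l riemannZeta w‖ ≤ C * w.im ^ 2 := by
  obtain ⟨C1, hC1, h1⟩ := TT_bound l (1 / 4) (1 / 8) (by norm_num)
  obtain ⟨C2, hC2, h2⟩ := zeta_growth
  refine ⟨max 1 (C1 * (C2 * 2 ^ 2)), le_max_left _ _, fun w hw1 hw3 => ?_⟩
  have h3 := h1 riemannZeta w (C2 * (2 * w.im) ^ 2) (by positivity) (zeta_diffOn_up.mono fun z hz => by
      have := abs_lt.1 (ball_coords hz).2
      have h4 : 0 < z.im := by linarith
      exact h4) (fun z hz => by
      have h5 := abs_lt.1 (ball_coords hz).2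
      have h6 := abs_lt.1 (ball_coords hz).1
      refine (h2 z (by linarith) (by linarith)).trans ?_
      have : z.im ≤ 2 * w.im := by linarith
      have h0 : 0 ≤ z.im := by linarith
      gcongr) w (mem_ball_self (by norm_num))
  refine h3.trans ?_
  calc C1 * (C2 * (2 * w.im) ^ 2) = (C1 * (C2 * 2 ^ 2)) * w.im ^ 2 := by ring
    _ ≤ _ := by
      gcongr
      exact le_max_right _ _

/-- few zeros of `TT l ζ` on the right give small values -/
theorem G_small (l : List ℂ) {σ0 c0 C0 : ℝ} (hσ : 3 ≤ σ0) (hc0 : 0 < c0) (hC0 : 1 ≤ C0)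
    (hG1 : ∀ s : ℂ, 2 ≤ s.re → ‖TT l riemannZeta s‖ ≤ C0)
    (hG2 : ∀ s : ℂ, σ0 ≤ s.re → TT l riemannZeta s ≠ 0)
    (hG3 : ∀ s : ℂ, σ0 ≤ s.re → s.re ≤ σ0 + 2 → c0 ≤ ‖TT l riemannZeta s‖)
    (ε : ℝ) (hε : 0 < ε) (hε1 : ε ≤ 1 / 2) : ∃ η t₀ : ℝ, 0 < η ∧ 4 ≤ t₀ ∧
    ∀ y : ℝ, t₀ ≤ y →
    ZL (TT l riemannZeta) {w | 1 / 2 + η ≤ w.re ∧ |w.im - y| ≤ σ0 + 2} (η * Real.log y) →
    ∀ w : ℂ, w.im = y → 1 / 2 + ε ≤ w.re → w.re ≤ σ0 + 1 →
      ‖TT l riemannZeta w‖ ≤ Real.exp (ε * Real.log y) := by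
  obtain ⟨η0, L, hη0, hL, hfew⟩ := few_small (σ0 + 1 / 2 - ε / 2) (σ0 + 1 / 2 - ε) 1 3 ε
    (by norm_num) (by linarith) (by linarith) (by norm_num) hε
  obtain ⟨C, hC, hG⟩ := G_growth l
  obtain ⟨t2, ht2, hlg⟩ := log_large (max (max L (Real.log (4 * C)))
    (max (Real.log C0 / η0) (-Real.log c0 / η0)))
  set η : ℝ := min η0 (ε / 2) with hη
  refine ⟨η, max t2 (σ0 + 4), by positivity, le_trans (by linarith) (le_max_right _ _), ?_⟩
  intro y hy hZ w hwy hw1 hw3
  have hyt2 : t2 ≤ y := (le_max_left _ _).trans hy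
  have hyσ : σ0 + 4 ≤ y := (le_max_right _ _).trans hy
  have hℓ := hlg y hyt2
  set ℓ := Real.log y with hℓd
  have c1 : L ≤ ℓ := ((le_max_left _ _).trans (le_max_left _ _)).trans hℓ
  have c2 : Real.log (4 * C) ≤ ℓ := ((le_max_right _ _).trans (le_max_left _ _)).trans hℓ
  have c3 : Real.log C0 ≤ η0 * ℓ := by
    have := ((le_max_left _ _).trans (le_max_right _ _)).trans hℓ
    rw [div_le_iff₀ hη0] at this
    linarith
  have c4 : -Real.log c0 ≤ η0 * ℓ := by
    have := ((le_max_right _ _).trans (le_max_right _ _)).trans hℓ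
    rw [div_le_iff₀ hη0] at this
    linarith
  have hℓ0 : 0 < ℓ := by linarith
  set G : ℂ → ℂ := TT l riemannZeta with hGd
  have hGdiff : DifferentiableOn ℂ G {w : ℂ | 0 < w.im} := TT_diff uhp_open l zeta_diffOn_up
  have hGan : ∀ z : ℂ, 0 < z.im → AnalyticAt ℂ G z := fun z hz =>
    hGdiff.analyticAt (uhp_open.mem_nhds hz)
  set c : ℂ := ⟨σ0 + 1, y⟩ with hc
  have hcre : c.re = σ0 + 1 := rfl
  have hcim : c.im = y := rfl
  have hreg : ∀ z ∈ closedBall c (σ0 + 1 / 2 - ε / 2), 1 / 2 + ε / 2 ≤ z.re ∧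
      |z.im - y| ≤ σ0 + 1 / 2 ∧ 2 ≤ z.im ∧ z.im ≤ 2 * y := by
    intro z hz
    obtain ⟨h1, h2⟩ := cball_coords hz
    rw [hcre] at h1
    rw [hcim] at h2
    have h1' := abs_le.1 h1
    have h2' := abs_le.1 h2
    exact ⟨by linarith, by linarith, by linarith, by linarith⟩
  refine hfew ℓ c1 G c (fun z hz => hGan z (by linarith [(hreg z hz).2.2.1])) ?_ ?_ ?_ ?_ w ?_
  · intro z hz
    obtain ⟨k1, k2, k4, k5⟩ := hreg z hz
    refine (hG z (by linarith) k4).trans ?_
    calc C * z.im ^ 2 ≤ C * (2 * y) ^ 2 := by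
          have : 0 ≤ z.im := by linarith
          gcongr
      _ = 4 * C * y ^ 2 := by ring
      _ = Real.exp (Real.log (4 * C)) * Real.exp ℓ ^ 2 := by
          rw [Real.exp_log (by positivity), hℓd, Real.exp_log (by linarith)]
      _ = Real.exp (Real.log (4 * C) + 2 * ℓ) := by
          rw [Real.exp_add, ← Real.exp_nat_mul]; norm_num
      _ ≤ Real.exp (3 * ℓ) := Real.exp_le_exp.2 (by linarith)
  · intro z hz
    obtain ⟨h1, h2⟩ := cball_coords hz
    rw [hcre] at h1
    have h1' := abs_le.1 h1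
    refine ⟨hG2 z (by linarith), (hG1 z (by linarith)).trans ?_⟩
    rw [← Real.log_le_iff_le_exp (by linarith)]
    exact c3
  · refine le_trans ?_ (hG3 c (by rw [hcre]; linarith) (by rw [hcre]; linarith))
    rw [← Real.le_log_iff_exp_le hc0]
    linarith
  · refine hZ.mono ?_ ?_
    · intro z hz
      obtain ⟨k1, k2, k4, k5⟩ := hreg z hz
      refine ⟨?_, by linarith⟩
      have : η ≤ ε / 2 := min_le_right _ _
      linarith
    · gcongr
      exact min_le_left _ _
  · rw [mem_closedBall, dist_eq_norm]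
    have e : w - c = ((w.re - (σ0 + 1) : ℝ) : ℂ) := by
      apply Complex.ext
      · simp [hc]
      · simp [hc, hwy]
    rw [e, Complex.norm_real, Real.norm_eq_abs, abs_le]
    constructor <;> linarith

/-- few zeros of `TT l ζ` on the right give the Lindelöf bound on the line -/
theorem QQ (l : List ℂ) (μ : ℝ) (hμ : 0 < μ) : ∃ η A t₀ : ℝ, 0 < η ∧ 4 ≤ t₀ ∧
    ∀ t : ℝ, t₀ ≤ t →
    ZL (TT l riemannZeta) {w | 1 / 2 + η ≤ w.re ∧ |w.im - t| ≤ A} (η * Real.log t) →
    ‖riemannZeta ⟨1 / 2, t⟩‖ ≤ Real.exp (μ * Real.log t) := by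
  obtain ⟨σ0, c0, C0, hσ, hc0, hC0, hG1, hG2, hG3⟩ := G_data l
  set ε : ℝ := min (μ / 4) (1 / 4) with hε
  have hε0 : 0 < ε := by positivity
  have hε1 : ε ≤ 1 / 4 := min_le_right _ _
  have hε2 : 4 * ε ≤ μ := by
    have : ε ≤ μ / 4 := min_le_left _ _
    linarith
  obtain ⟨H, t1, hH, ht1, hconv⟩ := convex_step ε (2 * ε) 1 hε0 (by positivity) (by linarith) one_pos
  obtain ⟨η0, t2, hη0, ht2, hsmall⟩ := G_small l hσ hc0 hC0 hG1 hG2 hG3 ε hε0 (by linarith)
  obtain ⟨C1, hC1, hrec⟩ := recon l (σ0 + 5) (by linarith) (1 / 2) (by norm_num)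
  obtain ⟨C2, hC2, hright⟩ := zeta_right_bounds
  obtain ⟨t3, ht3, hlg⟩ := log_large (max 2 ((Real.log C1 + Real.log C2 + 1) / ε))
  refine ⟨η0 / 2, H + σ0 + 6, max (max t1 (t2 + (H + 2))) (max t3 (2 * (H + 2) + 4)), by positivity,
    le_trans (by linarith) (le_trans (le_max_right _ _) (le_max_right _ _)), ?_⟩
  intro t ht hZ
  have k1 : t1 ≤ t := ((le_max_left _ _).trans (le_max_left _ _)).trans ht
  have k2 : t2 + (H + 2) ≤ t := ((le_max_right _ _).trans (le_max_left _ _)).trans ht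
  have k3 : t3 ≤ t := ((le_max_left _ _).trans (le_max_right _ _)).trans ht
  have k4 : 2 * (H + 2) + 4 ≤ t := ((le_max_right _ _).trans (le_max_right _ _)).trans ht
  have hℓ := hlg t k3
  set ℓ := Real.log t with hℓd
  have c1 : 2 ≤ ℓ := (le_max_left _ _).trans hℓ
  have c2 : Real.log C1 + Real.log C2 + 1 ≤ ε * ℓ := by
    have := (le_max_right _ _).trans hℓ
    rw [div_le_iff₀ hε0] at this
    linarith
  have hℓ0 : 0 < ℓ := by linarith
  have hlC2 : 0 ≤ Real.log C2 := Real.log_nonneg hC2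
  have hlC1 : 0 ≤ Real.log C1 := Real.log_nonneg hC1
  have hlogz : ∀ z : ℂ, |z.im - t| ≤ H + 2 → |Real.log z.im - ℓ| ≤ 1 := fun z hz =>
    log_near (by positivity) (by linarith) (by linarith) hz
  have hζ : ∀ w : ℂ, w.re = 1 / 2 + 2 * ε → |w.im - t| ≤ 1 + H →
      ‖riemannZeta w‖ ≤ Real.exp (2 * ε * ℓ) := by
    intro w hw1 hw2
    have hw2' := abs_le.1 hw2
    set Ω : Set ℂ := Rc (1 / 2 + ε) (σ0 + 1) w.im 1 with hΩ
    set c : ℂ := ⟨5 / 2, w.im⟩ with hc
    have hcre : c.re = 5 / 2 := rfl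
    have hcim : c.im = w.im := rfl
    have hΩm : ∀ z ∈ Ω, 1 / 2 + ε < z.re ∧ z.re < σ0 + 1 ∧ |z.im - w.im| < 1 := fun z hz => hz
    have hwm : w ∈ Ω := ⟨by linarith, by linarith, by simp⟩
    have hΩt : ∀ z ∈ Ω, |z.im - t| ≤ H + 2 := by
      intro z hz
      calc |z.im - t| = |(z.im - w.im) + (w.im - t)| := by congr 1; ring
        _ ≤ |z.im - w.im| + |w.im - t| := abs_add_le _ _
        _ ≤ H + 2 := by linarith [(hΩm z hz).2.2]
    have hGb : ∀ z ∈ Ω, ‖TT l riemannZeta z‖ ≤ Real.exp (ε * ℓ + 1 + Real.log C2) := by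
      intro z hz
      obtain ⟨h1, h2, h3⟩ := hΩm z hz
      have h4 := hΩt z hz
      have h4' := abs_le.1 h4
      have hlz := abs_le.1 (hlogz z h4)
      have h5 := hsmall z.im (by linarith) (hZ.mono (by
        rintro x ⟨k1, k2⟩
        refine ⟨by linarith, ?_⟩
        calc |x.im - t| = |(x.im - z.im) + (z.im - t)| := by congr 1; ring
          _ ≤ |x.im - z.im| + |z.im - t| := abs_add_le _ _
          _ ≤ H + σ0 + 6 := by linarith) (by
        calc η0 / 2 * ℓ ≤ η0 / 2 * (2 * Real.log z.im) := by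
              gcongr
              linarith
          _ = η0 * Real.log z.im := by ring)) z rfl (by linarith) (by linarith)
      refine h5.trans (Real.exp_le_exp.2 ?_)
      have h6 : ε * Real.log z.im ≤ ε * (ℓ + 1) := by
        gcongr
        linarith
      linarith
    have h1 := hrec Ω riemannZeta c _ (Rc_open _ _ _ _) (Rc_convex _ _ _ _)
      (Real.exp_pos (ε * ℓ + 1 + Real.log C2)).le (zeta_diffOn_up.mono fun z hz => by
        have := abs_le.1 (hΩt z hz)
        have h4 : 0 < z.im := by linarith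
        exact h4) (by
        intro z hz
        obtain ⟨h1, h2⟩ := ball_coords hz
        rw [hcre] at h1
        rw [hcim] at h2
        have h1' := abs_lt.1 h1
        exact ⟨by linarith, by linarith, by linarith⟩) (by
        intro z hz
        obtain ⟨h1, h2, h3⟩ := hΩm z hz
        refine (Complex.norm_le_abs_re_add_abs_im _).trans ?_
        rw [sub_re, sub_im, hcre, hcim]
        have h4 : |z.re - 5 / 2| ≤ σ0 + 4 := by
          rw [abs_le]; constructor <;> linarith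
        linarith) hGb (by
        intro z hz
        obtain ⟨h1, h2⟩ := ball_coords hz
        rw [hcre] at h1
        have h1' := abs_lt.1 h1
        refine ((hright z (by linarith)).2.1).trans ?_
        rw [← Real.log_le_iff_le_exp (by linarith)]
        have : 0 < ε * ℓ := by positivity
        linarith) w hwm
    refine h1.trans ?_
    have e : C1 = Real.exp (Real.log C1) := by rw [Real.exp_log (by linarith)]
    rw [e, ← Real.exp_add]
    apply Real.exp_le_exp.2
    linarith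
  have h1 := hconv t (2 * ε) k1 (by positivity) hζ ⟨1 / 2, t⟩ (by simp only; linarith)
    (by simp only; linarith) (by simp)
  refine h1.trans (Real.exp_le_exp.2 ?_)
  simp only
  gcongr
  linarith

/-- Small values of `ζ` imply few zeros of `TT l ζ` on the right. -/
theorem conv_G (l : List ℂ) (ε : ℝ) (hε : 0 < ε) (hε1 : ε ≤ 1 / 2) : ∃ η A t₀ : ℝ, 0 < η ∧ 4 ≤ t₀ ∧
    ∀ t : ℝ, t₀ ≤ t → SL η A t →
      ZL (TT l riemannZeta) {w | 1 / 2 + ε ≤ w.re ∧ |w.im - t| ≤ 1} (ε * Real.log t) := by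
  obtain ⟨σ0, c0, C0, hσ, hc0, hC0, hG1, hG2, hG3⟩ := G_data l
  obtain ⟨C, hC, hcount⟩ := cover_count (σ0 + 1) ε (by linarith) hε hε1
  set a0 : ℝ := ε / C with ha0
  have ha00 : 0 < a0 := by positivity
  obtain ⟨C1, hC1, hT⟩ := TT_bound l (ε / 4) (ε / 8) (by linarith)
  obtain ⟨η, A, t1, hη, ht1, hline⟩ := right_of_line (a0 / 2) (σ0 + 4) (by positivity) (by linarith)
  obtain ⟨t4, ht4, hlg⟩ := log_large (max 2 (2 * (|Real.log C1| + |Real.log c0|) / a0))
  refine ⟨η, A, max t1 (max t4 (σ0 + 14)), hη, le_trans ht1 (le_max_left _ _), ?_⟩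
  intro t ht hSL
  have k1 : t1 ≤ t := (le_max_left _ _).trans ht
  have k2 : t4 ≤ t := ((le_max_left _ _).trans (le_max_right _ _)).trans ht
  have k3 : σ0 + 14 ≤ t := ((le_max_right _ _).trans (le_max_right _ _)).trans ht
  have hℓ := hlg t k2
  set ℓ := Real.log t with hℓd
  have c1 : 2 ≤ ℓ := (le_max_left _ _).trans hℓ
  have c2 : 2 * (|Real.log C1| + |Real.log c0|) ≤ a0 * ℓ := by
    have := (le_max_right _ _).trans hℓ
    rw [div_le_iff₀ ha00] at this
    linarith
  have hℓ0 : 0 < ℓ := by linarith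
  have haℓ : 0 < a0 * ℓ := by positivity
  have c4 := le_abs_self (Real.log C1)
  have c5 := abs_nonneg (Real.log C1)
  have c6 := neg_abs_le (Real.log c0)
  have c7 := abs_nonneg (Real.log c0)
  have hζ := hline t k1 hSL
  have hGdiff : DifferentiableOn ℂ (TT l riemannZeta) {w : ℂ | 0 < w.im} :=
    TT_diff uhp_open l zeta_diffOn_up
  have hcnt := hcount (TT l riemannZeta) t (a0 * ℓ) haℓ.le (by
      intro z hz1 hz2 hz3
      have hz3' := abs_le.1 hz3
      refine ⟨hGdiff.analyticAt (uhp_open.mem_nhds (show (0 : ℝ) < z.im by linarith)), ?_⟩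
      have h1 := hT riemannZeta z (Real.exp (a0 / 2 * ℓ)) (Real.exp_pos _).le
        (zeta_diffOn_up.mono fun x hx => by
          have := abs_lt.1 (ball_coords hx).2
          have h4 : 0 < x.im := by linarith
          exact h4) (by
        intro x hx
        obtain ⟨h2, h3⟩ := ball_coords hx
        have h2' := abs_lt.1 h2
        have h3' := abs_lt.1 h3
        exact hζ x (by linarith) (by rw [abs_le]; constructor <;> linarith)) z
        (mem_ball_self (by positivity))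
      refine h1.trans ?_
      have hC1e : C1 = Real.exp (Real.log C1) := by rw [Real.exp_log hC1]
      rw [hC1e, ← Real.exp_add]
      apply Real.exp_le_exp.2
      linarith)
    (by
      intro y hy
      have hre : (⟨σ0 + 1, y⟩ : ℂ).re = σ0 + 1 := rfl
      refine le_trans ?_ (hG3 ⟨σ0 + 1, y⟩ (by rw [hre]; linarith) (by rw [hre]; linarith))
      rw [← Real.le_log_iff_exp_le hc0]
      linarith)
  refine hcnt.mono' ?_ ?_
  · rintro z ⟨hz1, hz2⟩ h0
    refine ⟨hz1, ?_, hz2⟩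
    by_contra hcon
    push Not at hcon
    exact hG2 z (by linarith) h0
  · apply le_of_eq
    rw [ha0]
    field_simp

end Pool.Agent.N799.LH
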